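import Mathlib

/-!
# Project PD, local model: the `9 × 9` determinant of a radial map
-/

open Matrix

namespace Pool.Agent.PD4.Loc

/-- the matrix `(Z, ∂Z)` of `Z = (f(t), h(t) y)`, `t = |y|²`, `f1 = f'`, `h1 = h'` -/
def N9 (f f1 h h1 : ℝ) (y : Fin 8 → ℝ) : Matrix (Fin 9) (Fin 9) ℝ :=
  Matrix.of fun a j =>
    Fin.cases (motive := fun _ => ℝ) (Fin.cases (motive := fun _ => ℝ) f (fun j => 2 * f1 * y j) j)
      (fun i => Fin.cases (motive := fun _ => ℝ) (h * y i)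
        (fun j => (if i = j then h else 0) + 2 * h1 * y i * y j) j) a

lemma det_N9_of_ne (f f1 h h1 : ℝ) (y : Fin 8 → ℝ) (hh : h ≠ 0) :
    (N9 f f1 h h1 y).det = h ^ 7 * (f * (h + 2 * (∑ i, y i ^ 2) * h1) - 2 * (∑ i, y i ^ 2) * f1 * h) := by
  let U : Matrix (Fin 9) (Fin 2) ℝ := Matrix.of fun a =>
    Fin.cases (motive := fun _ => Fin 2 → ℝ) ![1, 0] (fun i => ![0, y i]) a
  let V : Matrix (Fin 2) (Fin 9) ℝ := Matrix.of
    ![fun j => Fin.cases (motive := fun _ => ℝ) ((f - h) / h) (fun j => 2 * f1 * y j / h) j,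
      fun j => Fin.cases (motive := fun _ => ℝ) 1 (fun j => 2 * h1 * y j / h) j]
  have e : N9 f f1 h h1 y = h • (1 + U * V) := by
    ext a j
    refine Fin.cases ?_ (fun i => ?_) a <;> refine Fin.cases ?_ (fun j => ?_) j
    · simp [N9, U, V, Matrix.mul_apply, Fin.sum_univ_two]
      field_simp
      ring
    · simp [N9, U, V, Matrix.mul_apply, Fin.sum_univ_two, Matrix.one_apply]
      rw [if_neg (Fin.succ_ne_zero j).symm]
      field_simp
      ring
    · simp [N9, U, V, Matrix.mul_apply, Fin.sum_univ_two, Matrix.one_apply]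
    · simp [N9, U, V, Matrix.mul_apply, Fin.sum_univ_two, Matrix.one_apply]
      split_ifs <;> field_simp <;> ring
  rw [e, Matrix.det_smul, Matrix.det_one_add_mul_comm, Matrix.det_fin_two]
  have eVU : ∀ a b, (V * U) a b = V a 0 * U 0 b + ∑ i : Fin 8, V a i.succ * U i.succ b :=
    fun a b => by rw [Matrix.mul_apply, Fin.sum_univ_succ]
  have e00 : (1 + V * U : Matrix (Fin 2) (Fin 2) ℝ) 0 0 = f / h := by
    rw [Matrix.add_apply, eVU]
    have h1 : ∑ i : Fin 8, V 0 i.succ * U i.succ 0 = 0 :=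
      Finset.sum_eq_zero fun i _ => by simp [U]
    have h2 : V 0 0 * U 0 0 = (f - h) / h := by simp [U, V]
    rw [h1, h2, Matrix.one_apply_eq]
    field_simp
    ring
  have e01 : (1 + V * U : Matrix (Fin 2) (Fin 2) ℝ) 0 1 = 2 * f1 * (∑ i, y i ^ 2) / h := by
    rw [Matrix.add_apply, eVU]
    have h1 : ∑ i : Fin 8, V 0 i.succ * U i.succ 1 = 2 * f1 * (∑ i, y i ^ 2) / h := by
      rw [mul_div_assoc, Finset.sum_div, Finset.mul_sum]
      exact Finset.sum_congr rfl fun i _ => by simp [U, V]; ring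
    have h2 : V 0 0 * U 0 1 = 0 := by simp [U]
    rw [h1, h2, Matrix.one_apply_ne (by decide)]
    ring
  have e10 : (1 + V * U : Matrix (Fin 2) (Fin 2) ℝ) 1 0 = 1 := by
    rw [Matrix.add_apply, eVU]
    have h1 : ∑ i : Fin 8, V 1 i.succ * U i.succ 0 = 0 :=
      Finset.sum_eq_zero fun i _ => by simp [U]
    have h2 : V 1 0 * U 0 0 = 1 := by simp [U, V]
    rw [h1, h2, Matrix.one_apply_ne (by decide)]
    ring
  have e11 : (1 + V * U : Matrix (Fin 2) (Fin 2) ℝ) 1 1 = 1 + 2 * h1 * (∑ i, y i ^ 2) / h := by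
    rw [Matrix.add_apply, eVU]
    have h1' : ∑ i : Fin 8, V 1 i.succ * U i.succ 1 = 2 * h1 * (∑ i, y i ^ 2) / h := by
      rw [mul_div_assoc, Finset.sum_div, Finset.mul_sum]
      exact Finset.sum_congr rfl fun i _ => by simp [U, V]; ring
    have h2 : V 1 0 * U 0 1 = 0 := by simp [U]
    rw [h1', h2, Matrix.one_apply_eq]
    ring
  rw [e00, e01, e10, e11, Fintype.card_fin]
  field_simp

theorem det_N9 (f f1 h h1 : ℝ) (y : Fin 8 → ℝ) :
    (N9 f f1 h h1 y).det = h ^ 7 * (f * (h + 2 * (∑ i, y i ^ 2) * h1) - 2 * (∑ i, y i ^ 2) * f1 * h) := by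
  have hc : Continuous fun s : ℝ => (N9 f f1 s h1 y).det := by
    apply Continuous.matrix_det
    refine continuous_matrix fun a j => ?_
    refine Fin.cases ?_ (fun i => ?_) a <;> refine Fin.cases ?_ (fun j => ?_) j <;>
      simp only [N9, Matrix.of_apply, Fin.cases_zero, Fin.cases_succ]
    · fun_prop
    · fun_prop
    · fun_prop
    · split_ifs <;> fun_prop
  have hc2 : Continuous fun s : ℝ => s ^ 7 * (f * (s + 2 * (∑ i, y i ^ 2) * h1) -
      2 * (∑ i, y i ^ 2) * f1 * s) := by fun_prop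
  have := Continuous.ext_on (dense_compl_singleton (0 : ℝ)) hc hc2
    (fun s hs => det_N9_of_ne f f1 s h1 y hs)
  exact congrFun this h

/-- the determinant when `f² + t h² = 1` -/
theorem det_N9_sphere (f f1 h h1 : ℝ) (y : Fin 8 → ℝ)
    (h0 : f ^ 2 + (∑ i, y i ^ 2) * h ^ 2 = 1)
    (hd : 2 * f * f1 + h ^ 2 + 2 * (∑ i, y i ^ 2) * h * h1 = 0) :
    (N9 f f1 h h1 y).det = - 2 * f1 * h ^ 6 := by
  rw [det_N9]
  generalize (∑ i, y i ^ 2) = t at *
  have e1 : h ^ 7 * (f * (h + 2 * t * h1) - 2 * t * f1 * h) =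
      h ^ 6 * (f * (h ^ 2 + 2 * t * h * h1) - 2 * f1 * (t * h ^ 2)) := by ring
  have e2 : h ^ 2 + 2 * t * h * h1 = - 2 * f * f1 := by linarith
  have e3 : t * h ^ 2 = 1 - f ^ 2 := by linarith
  rw [e1, e2, e3]
  ring

end Pool.Agent.PD4.Loc
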