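import Pool.Agent.PD4.Ix.Sm

/-!
# Project PD, local model: the mean of a periodic function as an integral over `ℝⁿ`
-/

open MeasureTheory Set
open scoped Pointwise

namespace Pool.Agent.PD4.Loc

/-- periodicity under integer translations -/
lemma sm_periodic_int {n : ℕ} (f : Sm n) (x : Fin n → ℝ) (i : Fin n) (k : ℤ) :
    f.1 (x + Pi.single i (k : ℝ)) = f.1 x := by
  have h1 := f.2.2
  have hn : ∀ (k : ℕ) (x : Fin n → ℝ), f.1 (x + Pi.single i (k : ℝ)) = f.1 x := by
    intro k
    induction k with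
    | zero => intro x; simp
    | succ k ih =>
      intro x
      have e : x + Pi.single i (((k + 1 : ℕ)) : ℝ) = (x + Pi.single i (k : ℝ)) + Pi.single i 1 := by
        rw [add_assoc, ← Pi.single_add]; push_cast; rfl
      rw [e, h1, ih]
  rcases Int.eq_nat_or_neg k with ⟨m, rfl | rfl⟩
  · exact_mod_cast hn m x
  · have h2 := hn m (x + Pi.single i (((-(m : ℤ)) : ℤ) : ℝ))
    rw [← h2, add_assoc, ← Pi.single_add]
    simp

/-- periodicity under the lattice `ℤⁿ` -/
lemma sm_periodic_vec {n : ℕ} (f : Sm n) (x : Fin n → ℝ) (m : Fin n → ℤ) :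
    f.1 (fun i => x i + (m i : ℝ)) = f.1 x := by
  have key : ∀ s : Finset (Fin n), f.1 (fun i => x i + if i ∈ s then (m i : ℝ) else 0) = f.1 x := by
    intro s
    induction s using Finset.induction_on with
    | empty => simp
    | insert a s ha ih =>
      rw [← ih]
      have e : (fun i => x i + if i ∈ insert a s then (m i : ℝ) else 0) =
          (fun i => x i + if i ∈ s then (m i : ℝ) else 0) + Pi.single a ((m a : ℤ) : ℝ) := by
        funext i
        by_cases hi : i = a
        · subst hi; simp [ha]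
        · simp [Finset.mem_insert, hi]
      rw [e, sm_periodic_int]
  simpa using key Finset.univ

/-- the cube `[-1/2, 1/2)ⁿ` may be used instead of `[0,1]ⁿ` -/
lemma mean_eq_cube {n : ℕ} (f : Sm n) :
    mean f = ∫ x in Set.pi univ (fun _ : Fin n => Ioo (-(1 / 2) : ℝ) (1 / 2)), f.1 x := by
  classical
  have e1 : mean f = ∫ x in Set.pi univ (fun _ : Fin n => Ico (0 : ℝ) 1), f.1 x := by
    have : mean f = ∫ x in Set.Icc (0 : Fin n → ℝ) 1, f.1 x := rfl
    rw [this]
    exact setIntegral_congr_set (Measure.univ_pi_Ico_ae_eq_Icc (μ := fun _ : Fin n => volume)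
      (f := (0 : Fin n → ℝ)) (g := (1 : Fin n → ℝ))).symm
  have hfd := ZSpan.isAddFundamentalDomain' (Pi.basisFun ℝ (Fin n)) (volume : Measure (Fin n → ℝ))
  rw [ZSpan.fundamentalDomain_pi_basisFun] at hfd
  have hfd2 := hfd.vadd_of_comm (fun _ : Fin n => (-(1 / 2) : ℝ))
  have hinv : ∀ (g : (Submodule.span ℤ (Set.range (Pi.basisFun ℝ (Fin n)))).toAddSubgroup)
      (x : Fin n → ℝ), f.1 (g +ᵥ x) = f.1 x := by
    intro g x
    obtain ⟨g, hg⟩ := g
    have hg' : g ∈ Submodule.span ℤ (Set.range (Pi.basisFun ℝ (Fin n))) := hg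
    obtain ⟨c, hc⟩ := (Submodule.mem_span_range_iff_exists_fun ℤ).mp hg'
    have e : (⟨g, hg⟩ : (Submodule.span ℤ (Set.range (Pi.basisFun ℝ (Fin n)))).toAddSubgroup) +ᵥ x
        = fun i => x i + (c i : ℝ) := by
      funext i
      have : g i = c i := by
        rw [← hc]
        simp [Finset.sum_apply, Pi.basisFun_apply, Pi.single_apply]
      change g i + x i = _
      rw [this, add_comm]
    rw [e, sm_periodic_vec]
  have : Countable (Submodule.span ℤ (Set.range (Pi.basisFun ℝ (Fin n)))).toAddSubgroup :=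
    inferInstanceAs (Countable (Submodule.span ℤ (Set.range (Pi.basisFun ℝ (Fin n)))))
  rw [e1, hfd.setIntegral_eq hfd2 hinv]
  apply setIntegral_congr_set
  have e2 : ((fun _ : Fin n => (-(1 / 2) : ℝ)) +ᵥ Set.pi univ (fun _ : Fin n => Ico (0 : ℝ) 1)) =
      Set.pi univ (fun _ : Fin n => Ico (-(1 / 2) : ℝ) (1 / 2)) := by
    ext x
    rw [Set.mem_vadd_set_iff_neg_vadd_mem]
    simp only [Set.mem_pi, mem_univ, forall_const, mem_Ico, vadd_eq_add]
    refine forall_congr' fun i => ?_
    have e3 : ((-fun _ : Fin n => (-(1 / 2) : ℝ)) + x) i = 1 / 2 + x i := by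
      simp
    rw [e3]
    constructor <;> intro h <;> constructor <;> linarith [h.1, h.2]
  rw [e2]
  have h3 := Measure.univ_pi_Ico_ae_eq_Icc (μ := fun _ : Fin n => (volume : Measure ℝ))
    (f := fun _ : Fin n => (-(1 / 2) : ℝ)) (g := fun _ : Fin n => (1 / 2 : ℝ))
  have h4 := Measure.univ_pi_Ioo_ae_eq_Icc (μ := fun _ : Fin n => (volume : Measure ℝ))
    (f := fun _ : Fin n => (-(1 / 2) : ℝ)) (g := fun _ : Fin n => (1 / 2 : ℝ))
  exact h3.trans h4.symm

/-- mean value of a function supported in the open cube -/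
theorem mean_eq_integral {n : ℕ} (f : Sm n) (φ : (Fin n → ℝ) → ℂ)
    (hφ : ∀ x, (∀ i, |x i| < 1 / 2) → f.1 x = φ x) (h0 : ∀ x, (∃ i, 1 / 2 ≤ |x i|) → φ x = 0) :
    mean f = ∫ x, φ x := by
  rw [mean_eq_cube]
  have hm : MeasurableSet (Set.pi univ (fun _ : Fin n => Ioo (-(1 / 2) : ℝ) (1 / 2))) :=
    MeasurableSet.univ_pi fun _ => measurableSet_Ioo
  have h1 : ∀ x, x ∉ Set.pi univ (fun _ : Fin n => Ioo (-(1 / 2) : ℝ) (1 / 2)) → φ x = 0 := by
    intro x hx
    apply h0
    by_contra hcon
    push Not at hcon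
    exact hx fun i _ => abs_lt.mp (hcon i)
  rw [← setIntegral_eq_integral_of_forall_compl_eq_zero h1]
  refine setIntegral_congr_fun hm fun x hx => ?_
  apply hφ
  intro i
  have := hx i (mem_univ i)
  exact abs_lt.mpr ⟨this.1, this.2⟩

/-- an element of `Sm n` is determined by its values in the open cube -/
theorem sm_ext_cube {n : ℕ} (f g : Sm n) (h : ∀ x, (∀ i, |x i| < 1 / 2) → f.1 x = g.1 x) :
    f = g := by
  apply Subtype.ext
  -- first the closed cube
  have hc : ∀ x : Fin n → ℝ, (∀ i, |x i| ≤ 1 / 2) → f.1 x = g.1 x := by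
    intro x hx
    have hf := f.2.1.continuous
    have hg := g.2.1.continuous
    have h1 : Filter.Tendsto (fun s : ℝ => f.1 (s • x)) (nhdsWithin 1 (Iio 1)) (nhds (f.1 x)) := by
      have : Continuous fun s : ℝ => f.1 (s • x) := hf.comp (by fun_prop)
      have h2 := (this.tendsto 1).mono_left (nhdsWithin_le_nhds (s := Iio 1))
      simpa using h2
    have h1' : Filter.Tendsto (fun s : ℝ => g.1 (s • x)) (nhdsWithin 1 (Iio 1)) (nhds (g.1 x)) := by
      have : Continuous fun s : ℝ => g.1 (s • x) := hg.comp (by fun_prop)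
      have h2 := (this.tendsto 1).mono_left (nhdsWithin_le_nhds (s := Iio 1))
      simpa using h2
    refine tendsto_nhds_unique_of_eventuallyEq h1 h1' ?_
    have h3 : ∀ᶠ s : ℝ in nhdsWithin 1 (Iio 1), 0 < s ∧ s < 1 := by
      have h4 : ∀ᶠ s : ℝ in nhdsWithin 1 (Iio 1), 0 < s :=
        nhdsWithin_le_nhds (lt_mem_nhds (by norm_num))
      exact h4.and self_mem_nhdsWithin
    filter_upwards [h3] with s hs
    apply h
    intro i
    have : |(s • x) i| = s * |x i| := by
      simp [abs_mul, abs_of_pos hs.1]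
    rw [this]
    rcases eq_or_lt_of_le (abs_nonneg (x i)) with h5 | h5
    · rw [← h5]; norm_num
    · calc s * |x i| < 1 * |x i| := by
            exact mul_lt_mul_of_pos_right hs.2 h5
        _ ≤ 1 / 2 := by rw [one_mul]; exact hx i
  funext x
  have h1 := sm_periodic_vec f x (fun i => - round (x i))
  have h2 := sm_periodic_vec g x (fun i => - round (x i))
  rw [← h1, ← h2]
  apply hc
  intro i
  have := abs_sub_round (x i)
  push_cast
  rw [← sub_eq_add_neg]
  exact this

end Pool.Agent.PD4.Loc
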