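import Mathlib

/-!
# Project PD (MP_69cf13_gt), local model: linear change of variables
-/

open MeasureTheory

namespace Pool.Agent.PD4.Loc

/-- linear change of variables -/
theorem integral_comp_mulVec (g : Matrix (Fin 8) (Fin 8) ℝ) (hg : g.det ≠ 0)
    (φ : (Fin 8 → ℝ) → ℝ) :
    ∫ x : Fin 8 → ℝ, g.det * φ (g.mulVec x) = SignType.sign g.det * ∫ y, φ y := by
  have hL : LinearMap.det (Matrix.toLin' g) ≠ 0 := by
    rw [LinearMap.det_toLin']; exact hg
  let e : (Fin 8 → ℝ) ≃L[ℝ] (Fin 8 → ℝ) :=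
    ((Matrix.toLin' g).equivOfDetNeZero hL).toContinuousLinearEquiv
  have he : ∀ x, e x = g.mulVec x := fun x => Matrix.toLin'_apply g x
  have hme : MeasurableEmbedding (fun x : Fin 8 → ℝ => g.mulVec x) := by
    have h := e.toHomeomorph.measurableEmbedding
    have e2 : (e.toHomeomorph : (Fin 8 → ℝ) → (Fin 8 → ℝ)) = fun x => g.mulVec x :=
      funext he
    rwa [e2] at h
  have hmap : Measure.map (fun x : Fin 8 → ℝ => g.mulVec x) volume =
      ENNReal.ofReal |g.det⁻¹| • (volume : Measure (Fin 8 → ℝ)) := by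
    have h := Real.map_matrix_volume_pi_eq_smul_volume_pi hg
    exact h
  have h1 : ∫ x : Fin 8 → ℝ, φ (g.mulVec x) = |g.det⁻¹| * ∫ y, φ y := by
    have h2 := hme.integral_map (μ := volume) (g := φ)
    rw [hmap, integral_smul_measure, ENNReal.toReal_ofReal (abs_nonneg _), smul_eq_mul] at h2
    exact h2.symm
  rw [integral_const_mul, h1, ← mul_assoc]
  congr 1
  rw [abs_inv]
  rcases lt_or_gt_of_ne hg with h | h
  · rw [sign_neg h, abs_of_neg h]
    simp only [SignType.coe_neg_one, inv_neg, mul_neg]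
    rw [mul_inv_cancel₀ hg]
  · rw [sign_pos h, abs_of_pos h, mul_inv_cancel₀ hg]
    simp

end Pool.Agent.PD4.Loc
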