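import Pool.Agent.PD4.Loc.RadialA
import Pool.Agent.PD4.Loc.LinInt

/-!
# Project PD (MP_69cf13_gt), local model: the radial integral
-/

open MeasureTheory
open scoped ContDiff

namespace Pool.Agent.PD4.Loc

/-- **radial integral**: `f, h : ℝ → ℝ` smooth, `f(t)² + t h(t)² = 1`, `f = -1` near `0`, `f = 1`
for large `t`: `∫_{ℝ⁸} -2 f'(|y|²) h(|y|²)⁶ dy = - (32/105) π⁴`. -/
theorem radial_integral (f h : ℝ → ℝ) (hf : ContDiff ℝ ∞ f) (hh : ContDiff ℝ ∞ h)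
    (hfh : ∀ t, f t ^ 2 + t * h t ^ 2 = 1) (f0 : f 0 = -1) (δ : ℝ) (hδ : 0 < δ)
    (f1 : ∀ t, δ ≤ t → f t = 1) :
    ∫ y : Fin 8 → ℝ, -2 * deriv f (∑ i, y i ^ 2) * h (∑ i, y i ^ 2) ^ 6 =
      - (32 / 105) * Real.pi ^ 4 :=
  radial_integral' f h hf hh hfh f0 δ hδ f1

end Pool.Agent.PD4.Loc
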