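import Pool.Agent.PD4.Loc.Cliff
import Pool.Agent.PD4.Loc.Radial
import Pool.Agent.PD4.Loc.MeanInt
import Pool.Agent.PD4.Loc.Det9

/-!
# Project PD (MP_69cf13_gt), local model: Chern number of the explicit idempotent

`e0 F p r z = [[p(|z|²), r(|z|²) L(z)ᵀ], [r(|z|²) L(z), 1 - p(|z|²)]]` on `ℂ⁸ ⊕ ℂ⁸`,
`r(t)² t = p(t)(1 - p(t))`, `p(0) = 0`, `p = 1` for `t ≥ δ`.
A matrix over `Sm 8` which equals `x ↦ e0 (g x)` on the open cube `|xᵢ| < 1/2` has
`evenCh 4 = ± 1`.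
-/

open Matrix MeasureTheory
open scoped ContDiff

namespace Pool.Agent.PD4.Loc

/-- the explicit idempotent -/
noncomputable def e0 (F : OctFrame) (p r : ℝ → ℝ) (z : Fin 8 → ℝ) :
    Matrix (Fin 8 ⊕ Fin 8) (Fin 8 ⊕ Fin 8) ℂ :=
  (fromBlocks (p (sq z) • (1 : Matrix (Fin 8) (Fin 8) ℝ)) (r (sq z) • (F.lin z)ᵀ)
    (r (sq z) • F.lin z) ((1 - p (sq z)) • (1 : Matrix (Fin 8) (Fin 8) ℝ))).map
      (fun t : ℝ => (t : ℂ))

/-- the sphere-valued map of the model: `(f, h z)` -/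
noncomputable def zet (f h : ℝ → ℝ) (z : Fin 8 → ℝ) : Fin 9 → ℝ :=
  Fin.cons (f (sq z)) (fun i => h (sq z) * z i)

lemma e0_eq (F : OctFrame) (p r : ℝ → ℝ) (z : Fin 8 → ℝ) :
    e0 F p r z = ((1 / 2 : ℝ) • (1 + ∑ a, zet (fun t => 2 * p t - 1) (fun t => 2 * r t) z a •
      Gam F a)).map (fun t : ℝ => (t : ℂ)) := by
  unfold e0
  congr 1
  rw [Fin.sum_univ_succ]
  have h1 : ∑ i : Fin 8, zet (fun t => 2 * p t - 1) (fun t => 2 * r t) z i.succ • Gam F i.succ =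
      fromBlocks 0 ((2 * r (sq z)) • (F.lin z)ᵀ) ((2 * r (sq z)) • F.lin z) 0 := by
    have h2 : ∀ i : Fin 8, zet (fun t => 2 * p t - 1) (fun t => 2 * r t) z i.succ • Gam F i.succ =
        fromBlocks 0 ((2 * r (sq z)) • (z i • (F.L i)ᵀ)) ((2 * r (sq z)) • (z i • F.L i)) 0 := by
      intro i
      simp only [zet, Gam, Fin.cons_succ, fromBlocks_smul, smul_zero, smul_smul]
    rw [Finset.sum_congr rfl fun i _ => h2 i]
    ext a b
    rw [Matrix.sum_apply]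
    rcases a with a | a <;> rcases b with b | b <;>
      simp [OctFrame.lin, Matrix.sum_apply, Finset.mul_sum, Matrix.transpose_apply]
  rw [h1]
  have h0 : zet (fun t => 2 * p t - 1) (fun t => 2 * r t) z 0 • Gam F 0 =
      fromBlocks ((2 * p (sq z) - 1) • 1) 0 0 ((2 * p (sq z) - 1) • (-1)) := by
    simp only [zet, Gam, Fin.cons_zero, fromBlocks_smul, smul_zero]
  rw [h0, ← fromBlocks_one, fromBlocks_add, fromBlocks_add, fromBlocks_smul]
  congr 1 <;> module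

/-- evaluation commutes with the trace -/
lemma ev_trace {ι : Type*} [Fintype ι] {n : ℕ} (M : Matrix ι ι (Sm n)) (x : Fin n → ℝ) :
    (Matrix.trace M).1 x = (mev x M).trace := by
  change Sm.ev x (Matrix.trace M) = _
  rw [Matrix.trace, map_sum]
  rfl

lemma ev_det {ι : Type*} [Fintype ι] [DecidableEq ι] {n : ℕ} (M : Matrix ι ι (Sm n))
    (x : Fin n → ℝ) : (Matrix.det M).1 x = (mev x M).det := by
  change Sm.ev x (Matrix.det M) = _
  have h := (Sm.ev x : Sm n →⋆ₐ[ℂ] ℂ).toAlgHom.toRingHom.map_det M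
  exact h

lemma mev_mul' {ι κ ν : Type*} [Fintype κ] {n : ℕ} (A : Matrix ι κ (Sm n)) (B : Matrix κ ν (Sm n))
    (x : Fin n → ℝ) : mev x (A * B) = mev x A * mev x B := by
  have h := Matrix.map_mul (L := A) (M := B) (f := (Sm.ev x : Sm n →⋆ₐ[ℂ] ℂ).toAlgHom.toRingHom)
  exact h

lemma mev_GamS (F : OctFrame) (a : Fin 9) (x : Fin 8 → ℝ) :
    mev x (GamS F a) = (Gam F a).map (fun t : ℝ => (t : ℂ)) := by
  ext i j
  rfl

/-- the sphere coordinates extracted from an idempotent -/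
noncomputable def zS (F : OctFrame) (e : Matrix (Fin 8 ⊕ Fin 8) (Fin 8 ⊕ Fin 8) (Sm 8))
    (a : Fin 9) : Sm 8 := (1 / 8 : ℂ) • Matrix.trace (GamS F a * e)

lemma zS_ev (F : OctFrame) (p r : ℝ → ℝ) (z : Fin 8 → ℝ)
    (e : Matrix (Fin 8 ⊕ Fin 8) (Fin 8 ⊕ Fin 8) (Sm 8)) (x : Fin 8 → ℝ)
    (he : mev x e = e0 F p r z) (a : Fin 9) :
    (zS F e a).1 x = (zet (fun t => 2 * p t - 1) (fun t => 2 * r t) z a : ℝ) := by
  have h1 : (zS F e a).1 x = (1 / 8 : ℂ) * (Matrix.trace (GamS F a * e)).1 x := rfl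
  rw [h1, ev_trace, mev_mul', mev_GamS, he, e0_eq]
  generalize zet (fun t => 2 * p t - 1) (fun t => 2 * r t) z = ζ
  have h2 : ((Gam F a).map (fun t : ℝ => (t : ℂ)) *
      (((1 / 2 : ℝ) • (1 + ∑ b, ζ b • Gam F b)).map (fun t : ℝ => (t : ℂ)))) =
      (Gam F a * ((1 / 2 : ℝ) • (1 + ∑ b, ζ b • Gam F b))).map (fun t : ℝ => (t : ℂ)) := by
    have := Matrix.map_mul (L := Gam F a) (M := (1 / 2 : ℝ) • (1 + ∑ b, ζ b • Gam F b))
      (f := Complex.ofRealHom)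
    exact this.symm
  rw [h2]
  have h3 : ((Gam F a * ((1 / 2 : ℝ) • (1 + ∑ b, ζ b • Gam F b))).map
      (fun t : ℝ => (t : ℂ))).trace =
      (((Gam F a * ((1 / 2 : ℝ) • (1 + ∑ b, ζ b • Gam F b))).trace : ℝ) : ℂ) := by
    simp only [Matrix.trace, Matrix.diag_apply, Matrix.map_apply]
    push_cast
    rfl
  rw [h3]
  have h4 : (Gam F a * ((1 / 2 : ℝ) • (1 + ∑ b, ζ b • Gam F b))).trace = 8 * ζ a := by
    rw [Matrix.mul_smul, Matrix.trace_smul, Matrix.mul_add, Matrix.mul_one, Matrix.trace_add,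
      Gam_trace, Finset.mul_sum, Matrix.trace_sum]
    have h5 : ∀ b, (Gam F a * ζ b • Gam F b).trace = if a = b then 16 * ζ b else 0 := by
      intro b
      rw [Matrix.mul_smul, Matrix.trace_smul, Gam_trace_mul]
      split_ifs
      · rw [smul_eq_mul, mul_comm]
      · simp
    rw [Finset.sum_congr rfl fun b _ => h5 b]
    simp
    ring
  rw [h4]
  push_cast
  ring

/-- `e` is the Clifford idempotent of its sphere coordinates -/
lemma e_eq_eCl (F : OctFrame) (p r : ℝ → ℝ) (g : Matrix (Fin 8) (Fin 8) ℝ)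
    (e : Matrix (Fin 8 ⊕ Fin 8) (Fin 8 ⊕ Fin 8) (Sm 8))
    (he : ∀ x : Fin 8 → ℝ, (∀ i, |x i| < 1 / 2) → mev x e = e0 F p r (g *ᵥ x)) :
    e = eCl F (zS F e) := by
  ext1 i j
  apply sm_ext_cube
  intro x hx
  have h1 : (e i j).1 x = (mev x e) i j := rfl
  rw [h1, he x hx, e0_eq]
  have h2 : (eCl F (zS F e) i j).1 x =
      (1 / 2 : ℂ) * ((1 : Matrix (Fin 8 ⊕ Fin 8) (Fin 8 ⊕ Fin 8) ℂ) i j +
        ∑ a, (zS F e a).1 x * ((Gam F a i j : ℝ) : ℂ)) := by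
    have h3 : (eCl F (zS F e) i j).1 x = (1 / 2 : ℂ) *
        ((1 : Matrix (Fin 8 ⊕ Fin 8) (Fin 8 ⊕ Fin 8) (Sm 8)) i j +
          (∑ a, zS F e a • GamS F a) i j : Sm 8).1 x := rfl
    rw [h3]
    congr 1
    have h4 : ((1 : Matrix (Fin 8 ⊕ Fin 8) (Fin 8 ⊕ Fin 8) (Sm 8)) i j +
          (∑ a, zS F e a • GamS F a) i j : Sm 8).1 x =
        Sm.ev x ((1 : Matrix (Fin 8 ⊕ Fin 8) (Fin 8 ⊕ Fin 8) (Sm 8)) i j) +
        Sm.ev x ((∑ a, zS F e a • GamS F a) i j) := rfl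
    rw [h4]
    refine congrArg₂ (· + ·) ?_ ?_
    · by_cases hij : i = j
      · subst hij; rw [Matrix.one_apply_eq, Matrix.one_apply_eq, map_one]
      · rw [Matrix.one_apply_ne hij, Matrix.one_apply_ne hij, map_zero]
    · rw [Matrix.sum_apply, map_sum]
      rfl
  rw [h2]
  simp only [Matrix.map_apply, Matrix.smul_apply, Matrix.add_apply, Matrix.sum_apply, smul_eq_mul]
  push_cast
  congr 1
  congr 1
  · by_cases hij : i = j
    · subst hij; simp
    · simp [Matrix.one_apply_ne hij]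
  · refine Finset.sum_congr rfl fun a _ => ?_
    rw [zS_ev F p r (g *ᵥ x) e x (he x hx) a]

/-! ### derivatives -/

/-- `x ↦ (g x)_k` as a continuous linear map -/
noncomputable def gk (g : Matrix (Fin 8) (Fin 8) ℝ) (k : Fin 8) : (Fin 8 → ℝ) →L[ℝ] ℝ :=
  LinearMap.toContinuousLinearMap (LinearMap.proj k ∘ₗ Matrix.mulVecLin g)

lemma gk_apply (g : Matrix (Fin 8) (Fin 8) ℝ) (k : Fin 8) (x : Fin 8 → ℝ) :
    gk g k x = (g *ᵥ x) k := rfl

lemma gk_single (g : Matrix (Fin 8) (Fin 8) ℝ) (k i : Fin 8) :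
    gk g k (Pi.single i 1) = g k i := by
  rw [gk_apply, Matrix.mulVec_single_one]
  rfl

/-- the derivative of `x ↦ |g x|²` -/
lemma hasFDerivAt_sq (g : Matrix (Fin 8) (Fin 8) ℝ) (x : Fin 8 → ℝ) :
    HasFDerivAt (fun x => sq (g *ᵥ x)) (∑ k, (2 * (g *ᵥ x) k) • gk g k) x := by
  unfold sq
  refine HasFDerivAt.fun_sum fun k _ => ?_
  have h1 : HasFDerivAt (fun x : Fin 8 → ℝ => (g *ᵥ x) k) (gk g k) x := (gk g k).hasFDerivAt
  have h2 := h1.pow 2
  refine h2.congr_fderiv ?_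
  simp

lemma hasFDerivAt_zet (f h : ℝ → ℝ) (hf : Differentiable ℝ f) (hh : Differentiable ℝ h)
    (g : Matrix (Fin 8) (Fin 8) ℝ) (x : Fin 8 → ℝ) (a : Fin 9) :
    HasFDerivAt (fun x => zet f h (g *ᵥ x) a)
      (Fin.cases (motive := fun _ => (Fin 8 → ℝ) →L[ℝ] ℝ)
        ((deriv f (sq (g *ᵥ x))) • ∑ k, (2 * (g *ᵥ x) k) • gk g k)
        (fun i => h (sq (g *ᵥ x)) • gk g i +
          (g *ᵥ x) i • (deriv h (sq (g *ᵥ x)) • ∑ k, (2 * (g *ᵥ x) k) • gk g k)) a) x := by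
  refine Fin.cases ?_ (fun i => ?_) a
  · simp only [zet, Fin.cons_zero, Fin.cases_zero]
    exact ((hf _).hasDerivAt).comp_hasFDerivAt x (hasFDerivAt_sq g x)
  · simp only [zet, Fin.cons_succ, Fin.cases_succ]
    have h1 : HasFDerivAt (fun x => h (sq (g *ᵥ x)))
        (deriv h (sq (g *ᵥ x)) • ∑ k, (2 * (g *ᵥ x) k) • gk g k) x :=
      ((hh _).hasDerivAt).comp_hasFDerivAt x (hasFDerivAt_sq g x)
    have h2 : HasFDerivAt (fun x : Fin 8 → ℝ => (g *ᵥ x) i) (gk g i) x := (gk g i).hasFDerivAt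
    exact h1.mul h2

/-- the block matrix `1 ⊕ g` -/
def Dg (g : Matrix (Fin 8) (Fin 8) ℝ) : Matrix (Fin 9) (Fin 9) ℝ :=
  Matrix.of fun a j =>
    Fin.cases (motive := fun _ => ℝ) (Fin.cases (motive := fun _ => ℝ) 1 (fun _ => 0) j)
      (fun i => Fin.cases (motive := fun _ => ℝ) 0 (fun j => g i j) j) a

lemma det_Dg (g : Matrix (Fin 8) (Fin 8) ℝ) : (Dg g).det = g.det := by
  rw [Matrix.det_succ_column_zero, Fin.sum_univ_succ]
  have h1 : ∑ i : Fin 8, (-1 : ℝ) ^ ((i.succ : Fin 9) : ℕ) * Dg g i.succ 0 *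
      ((Dg g).submatrix (i.succ : Fin 9).succAbove Fin.succ).det = 0 :=
    Finset.sum_eq_zero fun i _ => by simp [Dg]
  rw [h1, add_zero]
  have h2 : (Dg g).submatrix (0 : Fin 9).succAbove Fin.succ = g := by
    ext i j
    simp [Dg]
  rw [h2]
  simp [Dg]

/-- the value of `Nz` at a point of the cube -/
lemma mev_Nz (F : OctFrame) (p r : ℝ → ℝ) (hp : ContDiff ℝ ∞ p) (hr : ContDiff ℝ ∞ r)
    (g : Matrix (Fin 8) (Fin 8) ℝ)
    (e : Matrix (Fin 8 ⊕ Fin 8) (Fin 8 ⊕ Fin 8) (Sm 8))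
    (he : ∀ x : Fin 8 → ℝ, (∀ i, |x i| < 1 / 2) → mev x e = e0 F p r (g *ᵥ x))
    (x : Fin 8 → ℝ) (hx : ∀ i, |x i| < 1 / 2) :
    mev x (Nz (zS F e)) =
      (N9 (2 * p (sq (g *ᵥ x)) - 1) (deriv (fun t => 2 * p t - 1) (sq (g *ᵥ x)))
        (2 * r (sq (g *ᵥ x))) (deriv (fun t => 2 * r t) (sq (g *ᵥ x))) (g *ᵥ x) * Dg g).map
        (fun t : ℝ => (t : ℂ)) := by
  have hf : Differentiable ℝ (fun t => 2 * p t - 1) :=
    ((hp.differentiable (by simp)).const_mul 2).sub_const 1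
  have hh : Differentiable ℝ (fun t => 2 * r t) := (hr.differentiable (by simp)).const_mul 2
  have hz : ∀ a, ∀ x : Fin 8 → ℝ, (∀ i, |x i| < 1 / 2) →
      (zS F e a).1 x = (zet (fun t => 2 * p t - 1) (fun t => 2 * r t) (g *ᵥ x) a : ℝ) :=
    fun a x hx => zS_ev F p r (g *ᵥ x) e x (he x hx) a
  have hopen : ∀ᶠ x' in nhds x, ∀ i, |x' i| < 1 / 2 := by
    rw [Filter.eventually_all]
    intro i
    have hc : Continuous fun x' : Fin 8 → ℝ => |x' i| := by fun_prop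
    exact hc.continuousAt.eventually_lt continuousAt_const (hx i)
  have hd : ∀ a i, (pD i (zS F e a)).1 x =
      (((Fin.cases (motive := fun _ => (Fin 8 → ℝ) →L[ℝ] ℝ)
        ((deriv (fun t => 2 * p t - 1) (sq (g *ᵥ x))) • ∑ k, (2 * (g *ᵥ x) k) • gk g k)
        (fun i => (2 * r (sq (g *ᵥ x))) • gk g i +
          (g *ᵥ x) i • (deriv (fun t => 2 * r t) (sq (g *ᵥ x)) • ∑ k, (2 * (g *ᵥ x) k) • gk g k))
        a) (Pi.single i 1) : ℝ) : ℂ) := by
    intro a i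
    have h1 : (pD i (zS F e a)).1 x = fderiv ℝ (zS F e a).1 x (Pi.single i 1) := rfl
    have h2 : (zS F e a).1 =ᶠ[nhds x] fun x' =>
        ((zet (fun t => 2 * p t - 1) (fun t => 2 * r t) (g *ᵥ x') a : ℝ) : ℂ) := by
      filter_upwards [hopen] with x' hx'
      exact hz a x' hx'
    rw [h1, h2.fderiv_eq]
    have h3 := (hasFDerivAt_zet (fun t => 2 * p t - 1) (fun t => 2 * r t) hf hh g x a)
    have h4 := (Complex.ofRealCLM.hasFDerivAt).comp x h3
    have h5 : (fun x' => ((zet (fun t => 2 * p t - 1) (fun t => 2 * r t) (g *ᵥ x') a : ℝ) : ℂ)) =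
        Complex.ofRealCLM ∘ fun x' => zet (fun t => 2 * p t - 1) (fun t => 2 * r t) (g *ᵥ x') a := by
      rfl
    rw [h5, h4.fderiv]
    rfl
  ext a j
  have hl : mev x (Nz (zS F e)) a j = (Nz (zS F e) a j).1 x := rfl
  rw [hl, Matrix.map_apply, Matrix.mul_apply, Fin.sum_univ_succ]
  have hg0 : ∀ (N : Matrix (Fin 9) (Fin 9) ℝ),
      ∑ k : Fin 8, N a k.succ * Dg g k.succ 0 = 0 :=
    fun N => Finset.sum_eq_zero fun k _ => by simp [Dg]
  have hgs : ∀ (N : Matrix (Fin 9) (Fin 9) ℝ) (i : Fin 8),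
      ∑ k : Fin 8, N a k.succ * Dg g k.succ i.succ = ∑ k : Fin 8, N a k.succ * g k i :=
    fun N i => Finset.sum_congr rfl fun k _ => by simp [Dg]
  refine Fin.cases ?_ (fun i => ?_) j
  · have h1 : (Nz (zS F e) a 0) = zS F e a := rfl
    rw [h1, hz a x hx, hg0, add_zero]
    refine Fin.cases ?_ (fun l => ?_) a
    · simp [N9, Dg, zet]
    · simp [N9, Dg, zet]
  · have h1 : (Nz (zS F e) a i.succ) = pD i (zS F e a) := rfl
    rw [h1, hd a i]
    have h2 : Dg g 0 i.succ = 0 := by simp [Dg]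
    rw [h2, mul_zero, zero_add, hgs]
    congr 1
    refine Fin.cases ?_ (fun l => ?_) a
    · simp only [Fin.cases_zero, ContinuousLinearMap.smul_apply, ContinuousLinearMap.sum_apply,
        gk_single, smul_eq_mul, N9, Matrix.of_apply, Fin.cases_succ]
      rw [Finset.mul_sum]
      exact Finset.sum_congr rfl fun k _ => by ring
    · simp only [Fin.cases_succ, ContinuousLinearMap.smul_apply, ContinuousLinearMap.sum_apply,
        ContinuousLinearMap.add_apply, gk_single, smul_eq_mul, N9, Matrix.of_apply]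
      have h4 : ∀ k : Fin 8, ((if l = k then 2 * r (sq (g *ᵥ x)) else 0) +
          2 * deriv (fun t => 2 * r t) (sq (g *ᵥ x)) * (g *ᵥ x) l * (g *ᵥ x) k) * g k i =
          (if l = k then 2 * r (sq (g *ᵥ x)) * g k i else 0) +
          2 * deriv (fun t => 2 * r t) (sq (g *ᵥ x)) * (g *ᵥ x) l * (g *ᵥ x) k * g k i := by
        intro k
        split_ifs <;> ring
      rw [Finset.sum_congr rfl fun k _ => h4 k, Finset.sum_add_distrib, Finset.sum_ite_eq,
        if_pos (Finset.mem_univ l)]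
      congr 1
      rw [Finset.mul_sum, Finset.mul_sum]
      exact Finset.sum_congr rfl fun k _ => by ring

/-- **THE LOCAL MODEL**: the explicit octonionic idempotent has `ch₄ = ± 1` -/
theorem evenCh_model (F : OctFrame) (g : Matrix (Fin 8) (Fin 8) ℝ) (hg : g.det ≠ 0)
    (p r : ℝ → ℝ) (hp : ContDiff ℝ ∞ p) (hr : ContDiff ℝ ∞ r)
    (hpr : ∀ t, t * r t ^ 2 = p t * (1 - p t)) (p0 : p 0 = 0)
    (δ : ℝ) (hδ : 0 < δ) (p1 : ∀ t, δ ≤ t → p t = 1)
    (hbox : ∀ x : Fin 8 → ℝ, sq (g *ᵥ x) ≤ δ → ∀ i, |x i| < 1 / 2)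
    (e : Matrix (Fin 8 ⊕ Fin 8) (Fin 8 ⊕ Fin 8) (Sm 8))
    (he : ∀ x : Fin 8 → ℝ, (∀ i, |x i| < 1 / 2) → mev x e = e0 F p r (g *ᵥ x)) :
    evenCh 4 e = 1 ∨ evenCh 4 e = -1 := by
  set f : ℝ → ℝ := fun t => 2 * p t - 1 with hfdef
  set h : ℝ → ℝ := fun t => 2 * r t with hhdef
  have hf : ContDiff ℝ ∞ f := (contDiff_const.mul hp).sub contDiff_const
  have hh : ContDiff ℝ ∞ h := contDiff_const.mul hr
  have hfh : ∀ t, f t ^ 2 + t * h t ^ 2 = 1 := by
    intro t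
    have := hpr t
    simp only [hfdef, hhdef]
    nlinarith [this]
  have hder : ∀ t, 2 * f t * deriv f t + h t ^ 2 + 2 * t * h t * deriv h t = 0 := by
    intro t
    have h1 : HasDerivAt f (deriv f t) t := ((hf.differentiable (by simp)) t).hasDerivAt
    have h2 : HasDerivAt h (deriv h t) t := ((hh.differentiable (by simp)) t).hasDerivAt
    have h3 : HasDerivAt (fun t => f t ^ 2 + t * h t ^ 2)
        (2 * f t * deriv f t + (1 * h t ^ 2 + t * (2 * h t * deriv h t))) t := by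
      have h4 := (h1.pow 2).add ((hasDerivAt_id t).mul (h2.pow 2))
      refine h4.congr_deriv ?_
      simp
    have h5 : (fun t => f t ^ 2 + t * h t ^ 2) = fun _ => (1 : ℝ) := funext hfh
    rw [h5] at h3
    have h6 := h3.unique (hasDerivAt_const t (1 : ℝ))
    linarith
  have hmean : mean (Nz (zS F e)).det =
      ((SignType.sign g.det * (- (32 / 105) * Real.pi ^ 4) : ℝ) : ℂ) := by
    rw [mean_eq_integral _ (fun x => ((g.det * ((fun y : Fin 8 → ℝ =>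
      -2 * deriv f (∑ i, y i ^ 2) * h (∑ i, y i ^ 2) ^ 6) (g.mulVec x)) : ℝ) : ℂ))]
    · have hI := integral_comp_mulVec g hg
        (fun y : Fin 8 → ℝ => -2 * deriv f (∑ i, y i ^ 2) * h (∑ i, y i ^ 2) ^ 6)
      rw [radial_integral f h hf hh hfh (by simp [hfdef, p0]) δ hδ
          (fun t ht => by simp only [hfdef, p1 t ht]; norm_num)] at hI
      rw [integral_complex_ofReal, ← hI]
    · intro x hx
      rw [ev_det, mev_Nz F p r hp hr g e he x hx]
      have h1 : ((N9 (2 * p (sq (g *ᵥ x)) - 1) (deriv f (sq (g *ᵥ x))) (2 * r (sq (g *ᵥ x)))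
          (deriv h (sq (g *ᵥ x))) (g *ᵥ x) * Dg g).map (fun t : ℝ => (t : ℂ))).det =
          (((N9 (2 * p (sq (g *ᵥ x)) - 1) (deriv f (sq (g *ᵥ x))) (2 * r (sq (g *ᵥ x)))
          (deriv h (sq (g *ᵥ x))) (g *ᵥ x) * Dg g).det : ℝ) : ℂ) :=
        (Complex.ofRealHom.map_det _).symm
      rw [h1, Matrix.det_mul, det_Dg, det_N9_sphere]
      · congr 1
        simp only [sq, hhdef]
        ring
      · exact hfh (sq (g *ᵥ x))
      · exact hder (sq (g *ᵥ x))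
    · intro x hx
      have h1 : δ < ∑ i, (g.mulVec x) i ^ 2 := by
        by_contra hcon
        push Not at hcon
        obtain ⟨i, hi⟩ := hx
        exact absurd (hbox x hcon i) (not_lt.mpr hi)
      have h2 : deriv f (∑ i, (g.mulVec x) i ^ 2) = 0 := by
        have h3 : f =ᶠ[nhds (∑ i, (g.mulVec x) i ^ 2)] fun _ => 1 := by
          filter_upwards [lt_mem_nhds h1] with t ht
          simp only [hfdef, p1 t ht.le]; norm_num
        rw [h3.deriv_eq, deriv_const]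
      simp [h2]
  have hT : (matCalc (Fin 8 ⊕ Fin 8) 8).evenT e =
      (F.eps : ℂ) * ((Nat.factorial 8 : ℂ) / 32) *
        ((SignType.sign g.det * (- (32 / 105) * Real.pi ^ 4) : ℝ) : ℂ) := by
    rw [← hmean, ← evenT_eCl, ← e_eq_eCl F p r g e he]
  have hval : evenCh 4 e = ((- (F.eps * (SignType.sign g.det : ℝ)) : ℝ) : ℂ) := by
    change 1 / ((Nat.factorial 4 : ℂ) * (2 * Real.pi * Complex.I) ^ 4) *
      (matCalc (Fin 8 ⊕ Fin 8) 8).evenT e = _
    rw [hT]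
    have hI : (2 * Real.pi * Complex.I : ℂ) ^ 4 = 16 * Real.pi ^ 4 := by
      rw [mul_pow, Complex.I_pow_four]; ring
    have hpi : (Real.pi : ℂ) ≠ 0 := by exact_mod_cast Real.pi_ne_zero
    rw [hI]
    norm_num [Nat.factorial]
    field_simp
    ring
  rw [hval]
  have hs : (SignType.sign g.det : ℝ) = 1 ∨ (SignType.sign g.det : ℝ) = -1 := by
    rcases lt_or_gt_of_ne hg with h1 | h1
    · right; simp [sign_neg h1]
    · left; simp [sign_pos h1]
  rcases F.heps with h1 | h1 <;> rcases hs with h2 | h2 <;> rw [h1, h2] <;> norm_num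

end Pool.Agent.PD4.Loc
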