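import Pool.Agent.PD4.Loc.Gam

/-!
# Project PD (MP_69cf13_gt), local model: the octonion table

`octL a : Matrix (Fin 8) (Fin 8) ℤ` is the matrix of `v ↦ conj(e_a) v`:
`(octL a) c b` = coefficient of `e_c` in `conj(e_a) e_b`, Cayley-Dickson convention
`(a,b)(c,d) = (a c - conj(d) b, d a + b conj(c))`, basis `e_0, ..., e_7`, `e_a e_b = ± e_{a xor b}`.
Row `0` of `L(y) v` is `y · v`, rows `1..7` are `Im (conj(y) v)`.
-/

open Matrix

namespace Pool.Agent.PD4.Loc

/-- signs: `conj(e_a) e_b = octSg a b • e_{a xor b}` -/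
def octSg : Matrix (Fin 8) (Fin 8) ℤ :=
  !![ 1, 1, 1, 1, 1, 1, 1, 1;
     -1, 1,-1, 1,-1, 1, 1,-1;
     -1, 1, 1,-1,-1,-1, 1, 1;
     -1,-1, 1, 1,-1, 1,-1, 1;
     -1, 1, 1, 1, 1,-1,-1,-1;
     -1,-1, 1,-1, 1, 1, 1,-1;
     -1,-1,-1, 1, 1,-1, 1, 1;
     -1, 1,-1,-1, 1, 1,-1, 1]

/-- `a xor b` -/
def octXor (a b : Fin 8) : Fin 8 := Fin.ofNat 8 (Nat.xor a b)

/-- the integer matrix of `v ↦ conj(e_a) v`: `(octL a) c b` = coefficient of `e_c` in
`conj(e_a) e_b` -/
def octL (a : Fin 8) : Matrix (Fin 8) (Fin 8) ℤ :=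
  fun c b => if c = octXor a b then octSg a b else 0

/-- `Im (conj(x) v)`, coordinates `1, ..., 7` -/
def octIm (x v : Fin 8 → ℝ) : Fin 7 → ℝ :=
  fun r => ∑ a, ∑ b, x a * v b * (octL a r.succ b : ℝ)

set_option maxRecDepth 100000 in
private lemma octL_swap : ∀ (r : Fin 7) (a b : Fin 8), octL a r.succ b = -octL b r.succ a := by
  decide +kernel

lemma octIm_swap (x v : Fin 8 → ℝ) (r : Fin 7) : octIm v x r = - octIm x v r := by
  unfold octIm
  rw [Finset.sum_comm, ← Finset.sum_neg_distrib]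
  refine Finset.sum_congr rfl fun a _ => ?_
  rw [← Finset.sum_neg_distrib]
  refine Finset.sum_congr rfl fun b _ => ?_
  rw [octL_swap r b a]
  push_cast
  ring

set_option maxRecDepth 100000 in
private lemma octL_tl : ∀ i j c b : Fin 8, (((octL i)ᵀ * octL j + (octL j)ᵀ * octL i) c b : ℤ) =
    if i = j then (if c = b then 2 else 0) else 0 := by
  decide +kernel

set_option maxRecDepth 100000 in
private lemma octL_lt : ∀ i j c b : Fin 8, ((octL i * (octL j)ᵀ + octL j * (octL i)ᵀ) c b : ℤ) =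
    if i = j then (if c = b then 2 else 0) else 0 := by
  decide +kernel

/-- a signed permutation matrix `e_b ↦ s_b e_{b xor a}` -/
private def sgn8 (a : Fin 8) (s : Fin 8 → ℤ) : Matrix (Fin 8) (Fin 8) ℤ :=
  fun c b => if c = octXor a b then s b else 0

/-- the signs of the product `(octL i)ᵀ * octL j` -/
private def sg2 (i j : Fin 8) (b : Fin 8) : ℤ :=
  octSg i (octXor i (octXor j b)) * octSg j b

set_option maxRecDepth 100000 in
private lemma p01 : ∀ c b : Fin 8, ((octL 0)ᵀ * octL 1) c b = sgn8 1 (sg2 0 1) c b := by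
  decide +kernel

set_option maxRecDepth 100000 in
private lemma p23 : ∀ c b : Fin 8, ((octL 2)ᵀ * octL 3) c b = sgn8 1 (sg2 2 3) c b := by
  decide +kernel

set_option maxRecDepth 100000 in
private lemma p45 : ∀ c b : Fin 8, ((octL 4)ᵀ * octL 5) c b = sgn8 1 (sg2 4 5) c b := by
  decide +kernel

set_option maxRecDepth 100000 in
private lemma p67 : ∀ c b : Fin 8, ((octL 6)ᵀ * octL 7) c b = sgn8 1 (sg2 6 7) c b := by
  decide +kernel

set_option maxRecDepth 100000 in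
private lemma p0123 : ∀ c b : Fin 8, (sgn8 1 (sg2 0 1) * sgn8 1 (sg2 2 3)) c b =
    sgn8 0 (fun b => sg2 0 1 (octXor 1 b) * sg2 2 3 b) c b := by
  decide +kernel

set_option maxRecDepth 100000 in
private lemma p4567 : ∀ c b : Fin 8, (sgn8 1 (sg2 4 5) * sgn8 1 (sg2 6 7)) c b =
    sgn8 0 (fun b => sg2 4 5 (octXor 1 b) * sg2 6 7 b) c b := by
  decide +kernel

set_option maxRecDepth 100000 in
private lemma pall : ∀ c b : Fin 8, (sgn8 0 (fun b => sg2 0 1 (octXor 1 b) * sg2 2 3 b) *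
    sgn8 0 (fun b => sg2 4 5 (octXor 1 b) * sg2 6 7 b)) c b =
    if c = b then -1 else 0 := by
  decide +kernel

private lemma octL_prod : (octL 0)ᵀ * octL 1 * (octL 2)ᵀ * octL 3 * (octL 4)ᵀ * octL 5 *
    (octL 6)ᵀ * octL 7 = (-1 : Matrix (Fin 8) (Fin 8) ℤ) := by
  have h1 : (octL 0)ᵀ * octL 1 = sgn8 1 (sg2 0 1) := by ext c b; exact p01 c b
  have h2 : (octL 2)ᵀ * octL 3 = sgn8 1 (sg2 2 3) := by ext c b; exact p23 c b
  have h3 : (octL 4)ᵀ * octL 5 = sgn8 1 (sg2 4 5) := by ext c b; exact p45 c b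
  have h4 : (octL 6)ᵀ * octL 7 = sgn8 1 (sg2 6 7) := by ext c b; exact p67 c b
  have h5 : sgn8 1 (sg2 0 1) * sgn8 1 (sg2 2 3) =
    sgn8 0 (fun b => sg2 0 1 (octXor 1 b) * sg2 2 3 b) := by ext c b; exact p0123 c b
  have h6 : sgn8 1 (sg2 4 5) * sgn8 1 (sg2 6 7) =
    sgn8 0 (fun b => sg2 4 5 (octXor 1 b) * sg2 6 7 b) := by ext c b; exact p4567 c b
  have h7 : sgn8 0 (fun b => sg2 0 1 (octXor 1 b) * sg2 2 3 b) *
    sgn8 0 (fun b => sg2 4 5 (octXor 1 b) * sg2 6 7 b) = (-1 : Matrix (Fin 8) (Fin 8) ℤ) := by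
    ext c b
    rw [pall c b, Matrix.neg_apply, Matrix.one_apply]
    split_ifs <;> simp
  calc (octL 0)ᵀ * octL 1 * (octL 2)ᵀ * octL 3 * (octL 4)ᵀ * octL 5 * (octL 6)ᵀ * octL 7
      = (((octL 0)ᵀ * octL 1) * ((octL 2)ᵀ * octL 3)) *
        (((octL 4)ᵀ * octL 5) * ((octL 6)ᵀ * octL 7)) := by simp only [Matrix.mul_assoc]
    _ = -1 := by rw [h1, h2, h3, h4, h5, h6, h7]

private lemma cast_mul (A B : Matrix (Fin 8) (Fin 8) ℤ) :
    (A * B).map (fun t : ℤ => (t : ℝ)) =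
      A.map (fun t : ℤ => (t : ℝ)) * B.map (fun t : ℤ => (t : ℝ)) :=
  Matrix.map_mul (f := Int.castRingHom ℝ)

private lemma cast_tr (A : Matrix (Fin 8) (Fin 8) ℤ) :
    (A.map (fun t : ℤ => (t : ℝ)))ᵀ = Aᵀ.map (fun t : ℤ => (t : ℝ)) := rfl

private lemma two_apply' (c b : Fin 8) :
    (2 : Matrix (Fin 8) (Fin 8) ℝ) c b = if c = b then 2 else 0 := by
  rw [← one_add_one_eq_two, Matrix.add_apply, Matrix.one_apply]
  split_ifs <;> norm_num

private lemma cast_two (i j : Fin 8) (A B : Matrix (Fin 8) (Fin 8) ℤ)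
    (h : ∀ c b, (A + B) c b = if i = j then (if c = b then 2 else 0) else 0) :
    A.map (fun t : ℤ => (t : ℝ)) + B.map (fun t : ℤ => (t : ℝ)) = if i = j then 2 else 0 := by
  ext c b
  have h1 := h c b
  rw [Matrix.add_apply] at h1
  rw [Matrix.add_apply, Matrix.map_apply, Matrix.map_apply, ← Int.cast_add, h1]
  by_cases hij : i = j
  · rw [if_pos hij, if_pos hij, two_apply']
    split_ifs <;> simp
  · rw [if_neg hij, if_neg hij]
    simp

/-- the octonion frame -/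
def octFrame : OctFrame where
  L a := (octL a).map (fun t : ℤ => (t : ℝ))
  eps := -1
  heps := Or.inr rfl
  tl := by
    intro i j
    rw [cast_tr, cast_tr, ← cast_mul, ← cast_mul]
    exact cast_two i j _ _ (octL_tl i j)
  lt := by
    intro i j
    rw [cast_tr, cast_tr, ← cast_mul, ← cast_mul]
    exact cast_two i j _ _ (octL_lt i j)
  prod := by
    have h := congrArg (fun A : Matrix (Fin 8) (Fin 8) ℤ => A.map (fun t : ℤ => (t : ℝ))) octL_prod
    simp only [cast_mul, ← cast_tr] at h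
    rw [h]
    ext c b
    by_cases hcb : c = b <;> simp [hcb]

lemma octFrame_lin_mulVec (y v : Fin 8 → ℝ) (c : Fin 8) :
    (octFrame.lin y *ᵥ v) c = ∑ a, ∑ b, y a * v b * (octL a c b : ℝ) := by
  rw [OctFrame.lin, Matrix.sum_mulVec, Finset.sum_apply]
  refine Finset.sum_congr rfl fun a _ => ?_
  rw [Matrix.smul_mulVec, Pi.smul_apply, Matrix.mulVec, dotProduct, smul_eq_mul, Finset.mul_sum]
  refine Finset.sum_congr rfl fun b _ => ?_
  show y a * ((octL a c b : ℝ) * v b) = _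
  ring

set_option maxRecDepth 100000 in
private lemma octL_row_zero : ∀ a b : Fin 8, octL a 0 b = if a = b then 1 else 0 := by
  decide +kernel

/-- row `0` of `L(y) v` is the scalar product -/
lemma octFrame_row_zero (y v : Fin 8 → ℝ) : (octFrame.lin y *ᵥ v) 0 = y ⬝ᵥ v := by
  rw [octFrame_lin_mulVec, dotProduct]
  refine Finset.sum_congr rfl fun a _ => ?_
  rw [Finset.sum_eq_single a]
  · rw [octL_row_zero, if_pos rfl]; simp
  · intro b _ hb
    rw [octL_row_zero, if_neg (Ne.symm hb)]; simp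
  · intro h; exact absurd (Finset.mem_univ a) h

/-- the rows `1, ..., 7` of `L(y) v` -/
lemma octFrame_row_succ (y v : Fin 8 → ℝ) (r : Fin 7) :
    (octFrame.lin y *ᵥ v) r.succ = octIm y v r :=
  octFrame_lin_mulVec y v r.succ

end Pool.Agent.PD4.Loc
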