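import Mathlib

/-!
# Project PD (MP_69cf13_gt), local model: antisymmetrised products of anticommuting elements

`anti_sum`: for nine pairwise anticommuting elements `G a` of an `A`-algebra `M`,
`∑_σ sgn σ ∏_j (∑_a D (σ j) a G a) = 8! ∑_c det (D i (c.succAbove j)) ∏_{a ≠ c} G a`.
-/

open Equiv

namespace Pool.Agent.PD4.Loc

section perm

variable {A : Type*} [Ring A]

/-- adjacent transposition in a product of anticommuting elements -/
lemma prod_ofFn_swap : ∀ {n : ℕ} (i : Fin n) (γ : Fin (n + 1) → A)
    (_ : ∀ a b, a ≠ b → γ a * γ b = -(γ b * γ a)),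
    (List.ofFn fun j => γ (swap i.castSucc i.succ j)).prod = -(List.ofFn γ).prod := by
  intro n
  induction n with
  | zero => intro i; exact i.elim0
  | succ n ih =>
    intro i γ h
    refine Fin.cases ?_ (fun i => ?_) i
    · rw [List.ofFn_succ, List.ofFn_succ, List.ofFn_succ, List.ofFn_succ]
      simp only [List.prod_cons]
      have h0 : swap (Fin.castSucc (0 : Fin (n + 1))) (Fin.succ 0) 0 = Fin.succ 0 := by
        rw [Fin.castSucc_zero, swap_apply_left]
      have h1 : swap (Fin.castSucc (0 : Fin (n + 1))) (Fin.succ 0) (Fin.succ 0) = 0 := by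
        rw [Fin.castSucc_zero, swap_apply_right]
      have h2 : ∀ j : Fin n, swap (Fin.castSucc (0 : Fin (n + 1))) (Fin.succ 0)
          (Fin.succ (Fin.succ j)) = Fin.succ (Fin.succ j) := by
        intro j
        apply swap_apply_of_ne_of_ne
        · rw [Fin.castSucc_zero]; exact Fin.succ_ne_zero _
        · intro hj
          exact Fin.succ_ne_zero j (Fin.succ_injective _ hj)
      rw [h0, h1]
      simp only [h2]
      rw [← mul_assoc, ← mul_assoc, h (Fin.succ 0) 0 (Fin.succ_ne_zero _), neg_mul]
    · rw [List.ofFn_succ (f := fun j => γ (swap (Fin.castSucc (Fin.succ i))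
        (Fin.succ (Fin.succ i)) j)), List.ofFn_succ (f := γ)]
      simp only [List.prod_cons]
      have h0 : swap (Fin.castSucc (Fin.succ i)) (Fin.succ (Fin.succ i)) 0 = 0 := by
        apply swap_apply_of_ne_of_ne
        · rw [← Fin.succ_castSucc]; exact (Fin.succ_ne_zero _).symm
        · exact (Fin.succ_ne_zero _).symm
      have h1 : ∀ j : Fin (n + 1), swap (Fin.castSucc (Fin.succ i)) (Fin.succ (Fin.succ i))
          (Fin.succ j) = Fin.succ (swap (Fin.castSucc i) (Fin.succ i) j) := by
        intro j
        rw [← Fin.succ_castSucc]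
        exact (Function.Injective.map_swap (Fin.succ_injective _) _ _ _).symm
      rw [h0]
      simp only [h1]
      rw [ih i (fun j => γ (Fin.succ j)) (fun a b hab => h _ _
        (fun hc => hab (Fin.succ_injective _ hc))), mul_neg]

/-- permutation of a product of anticommuting elements -/
lemma prod_ofFn_perm {n : ℕ} (σ : Perm (Fin n)) : ∀ (γ : Fin n → A)
    (_ : ∀ a b, a ≠ b → γ a * γ b = -(γ b * γ a)),
    (List.ofFn fun j => γ (σ j)).prod = ((Perm.sign σ : ℤ) : A) * (List.ofFn γ).prod := by
  obtain _ | n := n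
  · intro γ _
    have : σ = 1 := Subsingleton.elim _ _
    subst this
    simp
  have hσ : σ ∈ Submonoid.closure (Set.range fun i : Fin n => swap i.castSucc i.succ) := by
    rw [Perm.mclosure_swap_castSucc_succ]
    trivial
  induction hσ using Submonoid.closure_induction with
  | mem x hx =>
    obtain ⟨i, rfl⟩ := hx
    intro γ h
    rw [prod_ofFn_swap i γ h, Perm.sign_swap (Fin.castSucc_lt_succ).ne]
    simp
  | one => intro γ _; simp
  | mul x y _ _ hx hy =>
    intro γ h
    have h1 := hy (fun j => γ (x j)) (fun a b hab => h _ _ (fun hc => hab (x.injective hc)))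
    have h2 := hx γ h
    simp only [Perm.coe_mul, Function.comp_apply]
    rw [h1, h2, ← mul_assoc, Perm.sign_mul]
    congr 1
    push_cast
    exact (Int.cast_commute _ _).eq

/-- moving an element through a product of elements anticommuting with it -/
lemma mul_prod_anti (x : A) (l : List A) (h : ∀ y ∈ l, x * y = -(y * x)) :
    x * l.prod = (-1) ^ l.length * (l.prod * x) := by
  induction l with
  | nil => simp
  | cons y l ih =>
    rw [List.prod_cons, ← mul_assoc, h y (by simp), neg_mul, mul_assoc,
      ih (fun z hz => h z (by simp [hz])), List.length_cons, pow_succ, ← mul_assoc y,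
      ((Commute.neg_one_right y).pow_right l.length).eq]
    noncomm_ring

end perm


section anti

variable {A M : Type*} [CommRing A] [Ring M] [Algebra A M]

omit [Algebra A M] in
/-- product of a permuted anticommuting family -/
theorem anti_perm {n : ℕ} (G : Fin n → M) (hG : ∀ a b, a ≠ b → G a * G b = - (G b * G a))
    (σ : Equiv.Perm (Fin n)) :
    (List.ofFn fun j => G (σ j)).prod = (Equiv.Perm.sign σ : ℤ) • (List.ofFn G).prod := by
  rw [prod_ofFn_perm σ G hG, zsmul_eq_mul]

/-- Clifford multiplication -/
def cl {n : ℕ} (Γ : Fin n → M) : (Fin n → A) →ₗ[A] M where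
  toFun y := ∑ a, y a • Γ a
  map_add' y z := by simp [add_smul, Finset.sum_add_distrib]
  map_smul' r y := by simp [mul_smul, Finset.smul_sum]

lemma cl_apply {n : ℕ} (Γ : Fin n → M) (y : Fin n → A) : cl Γ y = ∑ a, y a • Γ a := rfl

lemma cl_single {n : ℕ} (Γ : Fin n → M) (a : Fin n) :
    cl Γ (Pi.single a (1 : A)) = Γ a := by
  rw [cl_apply, Finset.sum_eq_single a]
  · simp
  · intro b _ hb
    simp [hb]
  · simp

/-- the signed sum of products as an alternating map with values in the algebra -/
noncomputable def prAlt {m n : ℕ} (Γ : Fin n → M) : (Fin n → A) [⋀^Fin m]→ₗ[A] M :=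
  MultilinearMap.alternatization
    ((MultilinearMap.mkPiAlgebraFin A m M).compLinearMap (fun _ => cl Γ))

lemma prAlt_apply {m n : ℕ} (Γ : Fin n → M) (v : Fin m → Fin n → A) :
    prAlt Γ v = ∑ σ : Perm (Fin m), (Perm.sign σ : ℤ) •
      (List.ofFn fun j => cl Γ (v (σ j))).prod := by
  unfold prAlt
  rw [MultilinearMap.alternatization_apply]
  refine Finset.sum_congr rfl fun σ _ => ?_
  simp [Units.smul_def]

lemma prAlt_single {m n : ℕ} (Γ : Fin n → M)
    (hac : ∀ a b, a ≠ b → Γ a * Γ b = -(Γ b * Γ a)) (f : Fin m → Fin n)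
    (hf : Function.Injective f) :
    prAlt Γ (fun j => Pi.single (f j) (1 : A)) =
      m.factorial • (List.ofFn fun j => Γ (f j)).prod := by
  rw [prAlt_apply]
  simp only [cl_single]
  have h : ∀ σ : Perm (Fin m), (Perm.sign σ : ℤ) •
      (List.ofFn fun j => Γ (f (σ j))).prod = (List.ofFn fun j => Γ (f j)).prod := by
    intro σ
    rw [anti_perm (fun j => Γ (f j)) (fun a b hab => hac _ _ (fun hc => hab (hf hc))) σ,
      smul_smul, ← Units.val_mul]
    simp
  rw [Finset.sum_congr rfl fun σ _ => h σ, Finset.sum_const, Finset.card_univ, Fintype.card_perm,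
    Fintype.card_fin]

/-- minors as alternating maps -/
noncomputable def minorAlt {n : ℕ} (c : Fin (n + 1)) : (Fin (n + 1) → A) [⋀^Fin n]→ₗ[A] A :=
  (Matrix.detRowAlternating (R := A) (n := Fin n)).compLinearMap
    (LinearMap.funLeft A A (c.succAbove))

lemma minorAlt_apply {n : ℕ} (c : Fin (n + 1)) (D : Fin n → Fin (n + 1) → A) :
    minorAlt c D = (Matrix.of fun i j : Fin n => D i (c.succAbove j)).det := rfl

/-- the antisymmetrised product of eight combinations of nine anticommuting elements -/
theorem anti_sum' {n : ℕ} (G : Fin (n + 1) → M) (hG : ∀ a b, a ≠ b → G a * G b = - (G b * G a))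
    (D : Fin n → Fin (n + 1) → A) :
    ∑ σ : Equiv.Perm (Fin n), (Equiv.Perm.sign σ : ℤ) •
        (List.ofFn fun j : Fin n => ∑ a, D (σ j) a • G a).prod =
      (n.factorial) • ∑ c : Fin (n + 1), (Matrix.of fun i j : Fin n => D i (c.succAbove j)).det •
        (List.ofFn fun j : Fin n => G (c.succAbove j)).prod := by
  have key : prAlt (m := n) (A := A) G = (n.factorial) • ∑ c : Fin (n + 1),
      (LinearMap.toSpanSingleton A M
        (List.ofFn fun j : Fin n => G (c.succAbove j)).prod).compAlternatingMap (minorAlt c) := by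
    refine Module.Basis.ext_alternating (Pi.basisFun A (Fin (n + 1))) fun f hf => ?_
    simp only [Pi.basisFun_apply]
    rw [prAlt_single G hG f hf]
    obtain ⟨c, hc⟩ : ∃ c, c ∉ Set.range f := by
      by_contra hcon
      push Not at hcon
      have : Function.Surjective f := fun c => hcon c
      have h3 := Fintype.card_le_of_surjective f this
      simp at h3
    have hτ : ∀ j, ∃ i, c.succAbove i = f j := fun j =>
      Fin.exists_succAbove_eq (fun h => hc ⟨j, h⟩)
    choose t ht using hτ
    have htinj : Function.Injective t := by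
      intro i j hij
      apply hf
      rw [← ht i, ← ht j, hij]
    let τ : Perm (Fin n) := Equiv.ofBijective t (Finite.injective_iff_bijective.mp htinj)
    have hτ : ∀ j, f j = c.succAbove (τ j) := fun j => (ht j).symm
    have e0 : ∀ (s : Finset (Fin (n + 1))) (F : Fin (n + 1) → (Fin (n + 1) → A) [⋀^Fin n]→ₗ[A] M)
        (w : Fin n → Fin (n + 1) → A), (∑ c ∈ s, F c) w = ∑ c ∈ s, F c w := by
      intro s F w
      induction s using Finset.induction_on with
      | empty => simp
      | insert a s ha ih => rw [Finset.sum_insert ha, Finset.sum_insert ha,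
          AlternatingMap.add_apply, ih]
    have e1 : (((n.factorial) • ∑ c : Fin (n + 1),
      (LinearMap.toSpanSingleton A M
        (List.ofFn fun j : Fin n => G (c.succAbove j)).prod).compAlternatingMap (minorAlt c) :
          (Fin (n + 1) → A) [⋀^Fin n]→ₗ[A] M) fun j => Pi.single (f j) (1 : A)) =
        (n.factorial) • ∑ c : Fin (n + 1), (Matrix.of fun i j : Fin n =>
          (Pi.single (f i) (1 : A) : Fin (n + 1) → A) (c.succAbove j)).det •
          (List.ofFn fun j : Fin n => G (c.succAbove j)).prod := by
      rw [AlternatingMap.smul_apply, e0]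
      rfl
    rw [e1]
    congr 1
    rw [Finset.sum_eq_single c]
    · have e2 : (Matrix.of fun i j : Fin n =>
          (Pi.single (f i) (1 : A) : Fin (n + 1) → A) (c.succAbove j)) =
          Matrix.of fun i => (1 : Matrix (Fin n) (Fin n) A) (τ i) := by
        ext i j
        rw [Matrix.of_apply, Matrix.of_apply, hτ i, Pi.single_apply, Matrix.one_apply]
        by_cases h : τ i = j
        · rw [if_pos h, h, if_pos rfl]
        · rw [if_neg h, if_neg]
          intro hcon
          exact h (Fin.succAbove_right_injective hcon).symm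
      have e3 := (Matrix.detRowAlternating (R := A) (n := Fin n)).map_perm
        (fun j => (1 : Matrix (Fin n) (Fin n) A) j) τ
      have e4 : (Matrix.detRowAlternating (R := A) (n := Fin n))
          (fun j => (1 : Matrix (Fin n) (Fin n) A) j) = 1 := Matrix.det_one
      rw [e4] at e3
      have e5 : (Matrix.of fun i => (1 : Matrix (Fin n) (Fin n) A) (τ i)).det =
          ((Perm.sign τ : ℤ) : A) := by
        refine Eq.trans ?_ (e3.trans ?_)
        · rfl
        · simp [Units.smul_def]
      rw [e2, e5]
      have e6 : (fun j => G (f j)) = fun j => G (c.succAbove (τ j)) := by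
        funext j; rw [hτ j]
      rw [e6, anti_perm (fun j => G (c.succAbove j)) (fun a b hab => hG _ _
        (fun hcon => hab (Fin.succAbove_right_injective hcon))) τ, Int.cast_smul_eq_zsmul]
    · intro b _ hb
      obtain ⟨i, hi⟩ : ∃ i, f i = b := by
        obtain ⟨d, hd⟩ := Fin.exists_succAbove_eq hb
        refine ⟨τ.symm d, ?_⟩
        rw [hτ, Equiv.apply_symm_apply, hd]
      rw [Matrix.det_eq_zero_of_row_eq_zero i, zero_smul]
      intro j
      rw [Matrix.of_apply, hi, Pi.single_apply, if_neg (Fin.succAbove_ne b j)]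
    · intro h
      exact absurd (Finset.mem_univ _) h
  have h := congrArg (fun f => f D) key
  have e0 : ∀ (s : Finset (Fin (n + 1))) (F : Fin (n + 1) → (Fin (n + 1) → A) [⋀^Fin n]→ₗ[A] M)
        (w : Fin n → Fin (n + 1) → A), (∑ c ∈ s, F c) w = ∑ c ∈ s, F c w := by
      intro s F w
      induction s using Finset.induction_on with
      | empty => simp
      | insert a s ha ih => rw [Finset.sum_insert ha, Finset.sum_insert ha,
          AlternatingMap.add_apply, ih]
  simp only [prAlt_apply, AlternatingMap.smul_apply, e0] at h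
  exact h

/-- the antisymmetrised product of eight combinations of nine anticommuting elements -/
theorem anti_sum (G : Fin 9 → M) (hG : ∀ a b, a ≠ b → G a * G b = - (G b * G a))
    (D : Fin 8 → Fin 9 → A) :
    ∑ σ : Equiv.Perm (Fin 8), (Equiv.Perm.sign σ : ℤ) •
        (List.ofFn fun j : Fin 8 => ∑ a, D (σ j) a • G a).prod =
      (Nat.factorial 8) • ∑ c : Fin 9, (Matrix.of fun i j : Fin 8 => D i (c.succAbove j)).det •
        (List.ofFn fun j : Fin 8 => G (c.succAbove j)).prod :=
  anti_sum' G hG D

/-- moving `G c` into its place -/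
theorem anti_removed (G : Fin 9 → M) (hG : ∀ a b, a ≠ b → G a * G b = - (G b * G a))
    (hsq : ∀ a, G a * G a = 1) (e : A) (hprod : (List.ofFn G).prod = e • (1 : M)) (c : Fin 9) :
    (List.ofFn fun j : Fin 8 => G (c.succAbove j)).prod = ((-1 : A) ^ (c : ℕ) * e) • G c := by
  have h1 : G c * (List.ofFn fun j : Fin 8 => G (c.succAbove j)).prod =
      (List.ofFn fun j => G (c.cycleRange.symm j)).prod := by
    rw [List.ofFn_succ (f := fun j => G (c.cycleRange.symm j)), List.prod_cons]
    congr 1
    · rw [Fin.cycleRange_symm_zero]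
    · congr 1
      congr 1
      funext j
      rw [Fin.cycleRange_symm_succ]
  rw [anti_perm G hG, hprod, Perm.sign_symm, Fin.sign_cycleRange] at h1
  have h2 := congrArg (fun x => G c * x) h1
  simp only [← mul_assoc, hsq, one_mul] at h2
  rw [h2]
  have h3 : (((-1 : ℤˣ) ^ (c : ℕ) : ℤˣ) : ℤ) • (e • (1 : M)) = ((-1 : A) ^ (c : ℕ) * e) • (1 : M) := by
    rw [mul_smul, ← Int.cast_smul_eq_zsmul A]
    push_cast
    rfl
  rw [h3, mul_smul_comm, mul_one]

end anti

end Pool.Agent.PD4.Loc
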