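import Pool.Agent.PD4.Loc.Anti

/-!
# Project PD, local model: Clifford matrices and the pointwise value of `tr e (de)^n`

`cliff_sum`: for anticommuting `Γ₀, …, Γₙ` with `Γ_a² = 1` (`n > 0` even), `c(y) = ∑ y_a Γ_a`,
`∑_σ sgn σ · tr ((1 + c(y)) c(v_{σ 0}) ⋯ c(v_{σ (n-1)})) = n! · tr (Γ₀ ⋯ Γₙ) · det (y; v)`.
-/

open Equiv

namespace Pool.Agent.PD4.Loc

section main

variable {R A : Type*} [CommRing R] [Ring A] [Algebra R A]

/-- the signed sum as an alternating map -/
noncomputable def clAlt {m n : ℕ} (Γ : Fin n → A) (ϕ : A →ₗ[R] R) :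
    (Fin n → R) [⋀^Fin m]→ₗ[R] R :=
  MultilinearMap.alternatization
    (ϕ.compMultilinearMap ((MultilinearMap.mkPiAlgebraFin R m A).compLinearMap
      (fun _ => cl Γ)))

lemma clAlt_apply {m n : ℕ} (Γ : Fin n → A) (ϕ : A →ₗ[R] R) (v : Fin m → Fin n → R) :
    clAlt Γ ϕ v = ∑ σ : Perm (Fin m), ((Perm.sign σ : ℤ) : R) *
      ϕ (List.ofFn fun j => cl Γ (v (σ j))).prod := by
  unfold clAlt
  rw [MultilinearMap.alternatization_apply]
  refine Finset.sum_congr rfl fun σ _ => ?_
  simp [Units.smul_def]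

/-- value on basis vectors -/
lemma clAlt_single {m n : ℕ} (Γ : Fin n → A) (ϕ : A →ₗ[R] R)
    (hac : ∀ a b, a ≠ b → Γ a * Γ b = -(Γ b * Γ a)) (f : Fin m → Fin n)
    (hf : Function.Injective f) :
    clAlt Γ ϕ (fun j => Pi.single (f j) (1 : R)) =
      (m.factorial : R) * ϕ (List.ofFn fun j => Γ (f j)).prod := by
  rw [clAlt_apply]
  simp only [cl_single]
  have h : ∀ σ : Perm (Fin m), ((Perm.sign σ : ℤ) : R) *
      ϕ (List.ofFn fun j => Γ (f (σ j))).prod = ϕ (List.ofFn fun j => Γ (f j)).prod := by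
    intro σ
    rw [prod_ofFn_perm σ (fun j => Γ (f j)) (fun a b hab => hac _ _ (fun hc => hab (hf hc)))]
    have e : (((Perm.sign σ : ℤ) : A) * (List.ofFn fun j => Γ (f j)).prod) =
        ((Perm.sign σ : ℤ) : R) • (List.ofFn fun j => Γ (f j)).prod := by
      rw [Algebra.smul_def, map_intCast]
    rw [e, map_smul, smul_eq_mul, ← mul_assoc, ← Int.cast_mul, ← Units.val_mul]
    simp
  rw [Finset.sum_congr rfl fun σ _ => h σ, Finset.sum_const, Finset.card_univ, Fintype.card_perm,
    Fintype.card_fin, nsmul_eq_mul]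

variable {n : ℕ} (hn : Even n) (tr : A →ₗ[R] R) (tr_comm : ∀ a b, tr (a * b) = tr (b * a))
  (Γ : Fin (n + 1) → A) (hsq : ∀ a, Γ a * Γ a = 1)
  (hac : ∀ a b, a ≠ b → Γ a * Γ b = -(Γ b * Γ a)) (h2 : IsUnit (2 : R))

include h2 in
lemma eq_zero_of_eq_neg' {x : R} (h : x = -x) : x = 0 := by
  have h3 : 2 * x = 0 := by rw [two_mul]; nth_rewrite 2 [h]; exact add_neg_cancel x
  exact (h2.mul_right_eq_zero).1 h3

include hn tr_comm hac h2 in
/-- even products of distinct gammas have trace zero -/
lemma tr_prod_even (hn0 : n ≠ 0) (f : Fin n → Fin (n + 1)) (hf : Function.Injective f) :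
    tr (List.ofFn fun j => Γ (f j)).prod = 0 := by
  obtain _ | m := n
  · exact absurd rfl hn0
  have hm : Odd m := by
    rw [Nat.even_add_one, Nat.not_even_iff_odd] at hn
    exact hn
  apply eq_zero_of_eq_neg' h2
  rw [List.ofFn_succ, List.prod_cons]
  have h := mul_prod_anti (Γ (f 0)) (List.ofFn fun j : Fin m => Γ (f j.succ)) (by
    intro y hy
    rw [List.mem_ofFn] at hy
    obtain ⟨j, rfl⟩ := hy
    exact hac _ _ (fun hc => Fin.succ_ne_zero j (hf hc).symm))
  rw [List.length_ofFn, hm.neg_one_pow, neg_one_mul] at h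
  conv_lhs => rw [h]
  rw [map_neg, tr_comm]

include hn tr_comm hsq hac h2 in
/-- `tr (Γ_a ∏ Γ_{f j}) = 0` if `a` is one of the `f j` -/
lemma tr_prod_mem (f : Fin n → Fin (n + 1)) (a : Fin (n + 1)) (ha : a ∈ Set.range f) :
    tr (Γ a * (List.ofFn fun j => Γ (f j)).prod) = 0 := by
  obtain ⟨c, hc⟩ : ∃ c, c ∉ Set.range f := by
    by_contra hcon
    push Not at hcon
    have : Function.Surjective f := fun c => hcon c
    have h3 := Fintype.card_le_of_surjective f this
    simp at h3
  apply eq_zero_of_eq_neg' h2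
  have hca : c ≠ a := fun h => hc (h ▸ ha)
  have h := mul_prod_anti (Γ c) (Γ a :: List.ofFn fun j => Γ (f j)) (by
    intro y hy
    rw [List.mem_cons, List.mem_ofFn] at hy
    rcases hy with rfl | ⟨j, rfl⟩
    · exact hac _ _ hca
    · exact hac _ _ (fun h => hc ⟨j, h.symm⟩))
  rw [List.length_cons, List.length_ofFn, pow_succ, hn.neg_one_pow, one_mul, neg_one_mul,
    List.prod_cons] at h
  set N := Γ a * (List.ofFn fun j => Γ (f j)).prod with hN
  calc tr N = tr (Γ c * (Γ c * N)) := by rw [← mul_assoc, hsq, one_mul]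
    _ = tr (Γ c * -(N * Γ c)) := by rw [h]
    _ = - tr (Γ c * (N * Γ c)) := by rw [mul_neg, map_neg]
    _ = - tr (N * Γ c * Γ c) := by rw [tr_comm]
    _ = - tr N := by rw [mul_assoc, hsq, mul_one]

include hn tr_comm hac h2 in
/-- the constant part -/
lemma clAlt_tr_zero (hn0 : n ≠ 0) : clAlt (m := n) Γ tr = 0 := by
  refine Module.Basis.ext_alternating (Pi.basisFun R (Fin (n + 1))) fun f hf => ?_
  simp only [Pi.basisFun_apply]
  rw [clAlt_single Γ tr hac f hf, tr_prod_even hn tr tr_comm Γ hac h2 hn0 f hf]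
  simp

include hn tr_comm hsq hac h2 in
/-- the linear part -/
lemma clAlt_tr_one (y : Fin (n + 1) → R) :
    clAlt (m := n) Γ (tr ∘ₗ LinearMap.mulLeft R (cl Γ y)) =
      ((n.factorial : R) * tr (List.ofFn Γ).prod) •
        (Matrix.detRowAlternating (R := R) (n := Fin (n + 1))).curryLeft y := by
  refine Module.Basis.ext_alternating (Pi.basisFun R (Fin (n + 1))) fun f hf => ?_
  simp only [Pi.basisFun_apply]
  rw [clAlt_single Γ _ hac f hf, AlternatingMap.smul_apply]
  have key : ∀ a : Fin (n + 1), tr (Γ a * (List.ofFn fun j => Γ (f j)).prod) =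
      tr (List.ofFn Γ).prod * (Matrix.detRowAlternating (R := R) (n := Fin (n + 1)))
        (Matrix.vecCons (Pi.single a 1) fun i => Pi.single (f i) 1) := by
    intro a
    by_cases ha : a ∈ Set.range f
    · rw [tr_prod_mem hn tr tr_comm Γ hsq hac h2 f a ha]
      obtain ⟨j, hj⟩ := ha
      rw [AlternatingMap.map_eq_zero_of_eq _ _ (i := 0) (j := j.succ) _ (Fin.succ_ne_zero _).symm,
        mul_zero]
      simp [hj]
    · have hinj : Function.Injective (Matrix.vecCons a f : Fin (n + 1) → Fin (n + 1)) := by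
        rw [Matrix.vecCons, Fin.cons_injective_iff]
        exact ⟨ha, hf⟩
      let τ : Perm (Fin (n + 1)) := Equiv.ofBijective _ (Finite.injective_iff_bijective.mp hinj)
      have hτ0 : τ 0 = a := rfl
      have hτs : ∀ j : Fin n, τ j.succ = f j := fun j => rfl
      have e1 : Γ a * (List.ofFn fun j => Γ (f j)).prod = (List.ofFn fun j => Γ (τ j)).prod := by
        rw [List.ofFn_succ, List.prod_cons, hτ0]
        simp only [hτs]
      have e2 : (Matrix.vecCons (Pi.single a (1 : R)) fun i => Pi.single (f i) 1) =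
          fun j => (1 : Matrix (Fin (n + 1)) (Fin (n + 1)) R) (τ j) := by
        funext j
        refine Fin.cases ?_ (fun j => ?_) j
        · rw [Matrix.cons_val_zero, hτ0]
          funext b
          simp [Matrix.one_apply, Pi.single_apply, eq_comm]
        · rw [Matrix.cons_val_succ, hτs]
          funext b
          simp [Matrix.one_apply, Pi.single_apply, eq_comm]
      rw [e1, prod_ofFn_perm τ Γ hac, e2]
      have e3 : (((Perm.sign τ : ℤ) : A) * (List.ofFn Γ).prod) =
          ((Perm.sign τ : ℤ) : R) • (List.ofFn Γ).prod := by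
        rw [Algebra.smul_def, map_intCast]
      rw [e3, map_smul, smul_eq_mul, mul_comm]
      congr 1
      have e4 := (Matrix.detRowAlternating (R := R) (n := Fin (n + 1))).map_perm
        (fun j => (1 : Matrix (Fin (n + 1)) (Fin (n + 1)) R) j) τ
      have e5 : (Matrix.detRowAlternating (R := R) (n := Fin (n + 1)))
          (fun j => (1 : Matrix (Fin (n + 1)) (Fin (n + 1)) R) j) = 1 := Matrix.det_one
      rw [e5] at e4
      have e6 : (fun j => (1 : Matrix (Fin (n + 1)) (Fin (n + 1)) R) j) ∘ τ =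
        fun j => (1 : Matrix (Fin (n + 1)) (Fin (n + 1)) R) (τ j) := rfl
      rw [e6] at e4
      rw [e4]
      simp [Units.smul_def]
  rw [LinearMap.comp_apply, LinearMap.mulLeft_apply, cl_apply, Finset.sum_mul, map_sum]
  have e7 : (Matrix.detRowAlternating (R := R) (n := Fin (n + 1))).curryLeft y
      (fun i => Pi.single (f i) 1) = ∑ a, y a • (Matrix.detRowAlternating (R := R)
        (n := Fin (n + 1))) (Matrix.vecCons (Pi.single a 1) fun i => Pi.single (f i) 1) := by
    let ℓ : (Fin (n + 1) → R) →ₗ[R] R :=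
      { toFun := fun y => (Matrix.detRowAlternating (R := R) (n := Fin (n + 1))).curryLeft y
          (fun i => Pi.single (f i) 1)
        map_add' := fun y z => by rw [map_add]; rfl
        map_smul' := fun r y => by rw [map_smul]; rfl }
    have h3 := ℓ.pi_apply_eq_sum_univ y
    refine h3.trans ?_
    refine Finset.sum_congr rfl fun a _ => ?_
    have e8 : (fun j => if a = j then (1 : R) else 0) = Pi.single a 1 := by
      funext j
      simp [Pi.single_apply, eq_comm]
    rw [e8]
    rfl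
  rw [e7, smul_eq_mul, mul_assoc, Finset.mul_sum (s := Finset.univ) (a := tr _)]
  congr 1
  refine Finset.sum_congr rfl fun a _ => ?_
  rw [smul_mul_assoc, map_smul, key a]
  simp only [smul_eq_mul]
  ring

include hn tr_comm hsq hac h2 in
/-- **pointwise value of the even Chern form of a Clifford idempotent** -/
theorem cliff_sum (hn0 : n ≠ 0) (y : Fin (n + 1) → R) (v : Fin n → Fin (n + 1) → R) :
    ∑ σ : Perm (Fin n), ((Perm.sign σ : ℤ) : R) *
        tr ((1 + cl Γ y) * (List.ofFn fun j => cl Γ (v (σ j))).prod) =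
      (n.factorial : R) * tr (List.ofFn Γ).prod *
        (Matrix.of (Matrix.vecCons y v) : Matrix (Fin (n + 1)) (Fin (n + 1)) R).det := by
  have h0 := congrArg (fun f => f v) (clAlt_tr_zero hn tr tr_comm Γ hac h2 hn0)
  have h1 := congrArg (fun f => f v) (clAlt_tr_one hn tr tr_comm Γ hsq hac h2 y)
  simp only [clAlt_apply, AlternatingMap.smul_apply, AlternatingMap.zero_apply,
    LinearMap.comp_apply, LinearMap.mulLeft_apply, smul_eq_mul] at h0 h1
  have e : ∀ σ : Perm (Fin n), ((Perm.sign σ : ℤ) : R) *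
        tr ((1 + cl Γ y) * (List.ofFn fun j => cl Γ (v (σ j))).prod) =
      ((Perm.sign σ : ℤ) : R) * tr (List.ofFn fun j => cl Γ (v (σ j))).prod +
        ((Perm.sign σ : ℤ) : R) * tr (cl Γ y * (List.ofFn fun j => cl Γ (v (σ j))).prod) := by
    intro σ
    rw [add_mul, one_mul, map_add, mul_add]
  rw [Finset.sum_congr rfl fun σ _ => e σ, Finset.sum_add_distrib, h0, h1, zero_add]
  rfl

end main

end Pool.Agent.PD4.Loc
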