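import Mathlib

/-!
# Project PD (MP_69cf13_gt), local model: octonion frames and gamma matrices

`OctFrame`: eight real `8 × 8` matrices with the Clifford relations of octonion multiplication
(any octonion convention gives one).  `Gam F`: the nine anticommuting `16 × 16` matrices.
-/

open Matrix

namespace Pool.Agent.PD4.Loc

/-- eight real `8 × 8` matrices with the octonion (Clifford) relations -/
structure OctFrame where
  L : Fin 8 → Matrix (Fin 8) (Fin 8) ℝ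
  eps : ℝ
  heps : eps = 1 ∨ eps = -1
  tl : ∀ i j, (L i)ᵀ * L j + (L j)ᵀ * L i = if i = j then 2 else 0
  lt : ∀ i j, L i * (L j)ᵀ + L j * (L i)ᵀ = if i = j then 2 else 0
  prod : (L 0)ᵀ * L 1 * (L 2)ᵀ * L 3 * (L 4)ᵀ * L 5 * (L 6)ᵀ * L 7 = eps • 1

/-- `L(y) = ∑ yᵢ Lᵢ` -/
def OctFrame.lin (F : OctFrame) (y : Fin 8 → ℝ) : Matrix (Fin 8) (Fin 8) ℝ := ∑ i, y i • F.L i

/-- `|y|²` -/
def sq (y : Fin 8 → ℝ) : ℝ := ∑ i, y i ^ 2

private lemma two_smul_one_eq : (2 : Matrix (Fin 8) (Fin 8) ℝ) = (2 : ℝ) • 1 := by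
  rw [two_smul, one_add_one_eq_two]

/-- the polarised quadratic identity, summed -/
private lemma quad_sum (M : Fin 8 → Fin 8 → Matrix (Fin 8) (Fin 8) ℝ)
    (hM : ∀ i j, M i j + M j i = if i = j then 2 else 0) (y : Fin 8 → ℝ) :
    ∑ i, ∑ j, (y i * y j) • M i j = sq y • 1 := by
  have h1 : ∑ i, ∑ j, (y i * y j) • M i j = ∑ i, ∑ j, (y i * y j) • M j i := by
    rw [Finset.sum_comm]
    refine Finset.sum_congr rfl fun i _ => Finset.sum_congr rfl fun j _ => ?_
    rw [mul_comm]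
  have h2 : (2 : ℝ) • ∑ i, ∑ j, (y i * y j) • M i j = (2 : ℝ) • (sq y • 1) := by
    calc (2 : ℝ) • ∑ i, ∑ j, (y i * y j) • M i j
        = ∑ i, ∑ j, (y i * y j) • M i j + ∑ i, ∑ j, (y i * y j) • M j i := by
          rw [two_smul, ← h1]
      _ = ∑ i, ∑ j, (y i * y j) • (M i j + M j i) := by
          simp only [smul_add, Finset.sum_add_distrib]
      _ = ∑ i, (y i * y i) • (2 : Matrix (Fin 8) (Fin 8) ℝ) := by
          refine Finset.sum_congr rfl fun i _ => ?_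
          rw [Finset.sum_eq_single i]
          · rw [hM i i, if_pos rfl]
          · intro j _ hj
            rw [hM i j, if_neg (Ne.symm hj), smul_zero]
          · intro h; exact absurd (Finset.mem_univ i) h
      _ = (2 : ℝ) • (sq y • 1) := by
          rw [← Finset.sum_smul, two_smul_one_eq, smul_smul, smul_smul, sq]
          congr 1
          rw [mul_comm]
          congr 1
          refine Finset.sum_congr rfl fun i _ => ?_
          ring
  have h3 := congrArg (fun X => (1 / 2 : ℝ) • X) h2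
  simpa [smul_smul] using h3

lemma OctFrame.lin_tl (F : OctFrame) (y : Fin 8 → ℝ) : (F.lin y)ᵀ * F.lin y = sq y • 1 := by
  rw [← quad_sum (fun i j => (F.L i)ᵀ * F.L j) F.tl y]
  simp only [OctFrame.lin, Matrix.transpose_sum, Matrix.transpose_smul, Finset.sum_mul,
    Finset.mul_sum, smul_mul_assoc, mul_smul_comm, Finset.smul_sum, smul_smul]
  rw [Finset.sum_comm]
  refine Finset.sum_congr rfl fun i _ => Finset.sum_congr rfl fun j _ => ?_
  rw [mul_comm (y j)]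

lemma OctFrame.lin_lt (F : OctFrame) (y : Fin 8 → ℝ) : F.lin y * (F.lin y)ᵀ = sq y • 1 := by
  rw [← quad_sum (fun i j => F.L i * (F.L j)ᵀ) F.lt y]
  simp only [OctFrame.lin, Matrix.transpose_sum, Matrix.transpose_smul, Finset.sum_mul,
    Finset.mul_sum, smul_mul_assoc, mul_smul_comm, Finset.smul_sum, smul_smul]
  rw [Finset.sum_comm]
  refine Finset.sum_congr rfl fun i _ => Finset.sum_congr rfl fun j _ => ?_
  rw [mul_comm (y j)]

private lemma half_two {X : Matrix (Fin 8) (Fin 8) ℝ} (h : X + X = 2) : X = 1 := by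
  have h2 : (2 : ℝ) • X = (2 : ℝ) • 1 := by
    rw [two_smul, h, two_smul_one_eq]
  have h3 := congrArg (fun X => (1 / 2 : ℝ) • X) h2
  simpa [smul_smul] using h3

lemma OctFrame.tl_self (F : OctFrame) (i : Fin 8) : (F.L i)ᵀ * F.L i = 1 := by
  apply half_two
  rw [F.tl i i, if_pos rfl]

lemma OctFrame.lt_self (F : OctFrame) (i : Fin 8) : F.L i * (F.L i)ᵀ = 1 := by
  apply half_two
  rw [F.lt i i, if_pos rfl]

lemma OctFrame.tl_ne (F : OctFrame) {i j : Fin 8} (h : i ≠ j) :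
    (F.L i)ᵀ * F.L j = -((F.L j)ᵀ * F.L i) := by
  have := F.tl i j
  rw [if_neg h] at this
  exact eq_neg_of_add_eq_zero_left this

lemma OctFrame.lt_ne (F : OctFrame) {i j : Fin 8} (h : i ≠ j) :
    F.L i * (F.L j)ᵀ = -(F.L j * (F.L i)ᵀ) := by
  have := F.lt i j
  rw [if_neg h] at this
  exact eq_neg_of_add_eq_zero_left this

lemma OctFrame.tl_ne' (F : OctFrame) {i j : Fin 8} (h : i ≠ j) (X : Matrix (Fin 8) (Fin 8) ℝ) :
    (F.L i)ᵀ * (F.L j * X) = -((F.L j)ᵀ * (F.L i * X)) := by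
  rw [← Matrix.mul_assoc, F.tl_ne h, Matrix.neg_mul, Matrix.mul_assoc]

lemma OctFrame.lt_ne' (F : OctFrame) {i j : Fin 8} (h : i ≠ j) (X : Matrix (Fin 8) (Fin 8) ℝ) :
    F.L i * ((F.L j)ᵀ * X) = -(F.L j * ((F.L i)ᵀ * X)) := by
  rw [← Matrix.mul_assoc, F.lt_ne h, Matrix.neg_mul, Matrix.mul_assoc]

/-- the other product -/
lemma OctFrame.prod' (F : OctFrame) :
    F.L 0 * (F.L 1)ᵀ * F.L 2 * (F.L 3)ᵀ * F.L 4 * (F.L 5)ᵀ * F.L 6 * (F.L 7)ᵀ = (-F.eps) • 1 := by
  have h := congrArg (fun X => F.L 0 * X * (F.L 0)ᵀ) F.prod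
  simp only [Matrix.mul_assoc] at h ⊢
  rw [← Matrix.mul_assoc (F.L 0) (F.L 0)ᵀ, F.lt_self 0, Matrix.one_mul] at h
  rw [F.lt_ne' (show (0 : Fin 8) ≠ 1 by decide), F.tl_ne' (show (0 : Fin 8) ≠ 2 by decide),
    F.lt_ne' (show (0 : Fin 8) ≠ 3 by decide), F.tl_ne' (show (0 : Fin 8) ≠ 4 by decide),
    F.lt_ne' (show (0 : Fin 8) ≠ 5 by decide), F.tl_ne' (show (0 : Fin 8) ≠ 6 by decide),
    F.lt_ne (show (0 : Fin 8) ≠ 7 by decide)]
  simp only [Matrix.mul_neg, neg_neg]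
  rw [h]
  rw [Matrix.smul_mul, Matrix.one_mul, Matrix.mul_smul, F.lt_self 0, neg_smul]

/-- the nine gamma matrices -/
def Gam (F : OctFrame) : Fin 9 → Matrix (Fin 8 ⊕ Fin 8) (Fin 8 ⊕ Fin 8) ℝ :=
  Fin.cons (fromBlocks 1 0 0 (-1)) (fun i => fromBlocks 0 (F.L i)ᵀ (F.L i) 0)

lemma Gam_zero (F : OctFrame) : Gam F 0 = fromBlocks 1 0 0 (-1) := rfl

lemma Gam_succ (F : OctFrame) (i : Fin 8) :
    Gam F i.succ = fromBlocks 0 (F.L i)ᵀ (F.L i) 0 := rfl

lemma Gam_sq (F : OctFrame) (a : Fin 9) : Gam F a * Gam F a = 1 := by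
  refine Fin.cases ?_ (fun i => ?_) a
  · rw [Gam_zero, fromBlocks_multiply]
    simp
  · rw [Gam_succ, fromBlocks_multiply]
    simp [F.tl_self, F.lt_self]

lemma Gam_anti (F : OctFrame) (a b : Fin 9) (h : a ≠ b) : Gam F a * Gam F b = - (Gam F b * Gam F a) := by
  revert h
  refine Fin.cases ?_ (fun i => ?_) a
  · refine Fin.cases ?_ (fun j => ?_) b
    · intro h; exact absurd rfl h
    · intro _
      rw [Gam_zero, Gam_succ, fromBlocks_multiply, fromBlocks_multiply, fromBlocks_neg]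
      simp
  · refine Fin.cases ?_ (fun j => ?_) b
    · intro _
      rw [Gam_zero, Gam_succ, fromBlocks_multiply, fromBlocks_multiply, fromBlocks_neg]
      simp
    · intro h
      have hij : i ≠ j := fun e => h (by rw [e])
      rw [Gam_succ, Gam_succ, fromBlocks_multiply, fromBlocks_multiply, fromBlocks_neg]
      simp [F.tl_ne hij, F.lt_ne hij]

lemma Gam_trace (F : OctFrame) (a : Fin 9) : (Gam F a).trace = 0 := by
  refine Fin.cases ?_ (fun i => ?_) a
  · rw [Gam_zero]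
    simp [Matrix.trace]
  · rw [Gam_succ]
    simp [Matrix.trace]

lemma Gam_trace_mul (F : OctFrame) (a b : Fin 9) :
    (Gam F a * Gam F b).trace = if a = b then 16 else 0 := by
  split_ifs with h
  · rw [h, Gam_sq, Matrix.trace_one]
    norm_num
  · have h1 := congrArg Matrix.trace (Gam_anti F a b h)
    rw [Matrix.trace_neg, Matrix.trace_mul_comm (Gam F b)] at h1
    linarith

/-- `Γ₀ Γ₁ ⋯ Γ₈ = ε` -/
lemma Gam_prod (F : OctFrame) : (List.ofFn (Gam F)).prod = F.eps • 1 := by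
  have h1 := F.prod
  have h2 := F.prod'
  simp only [Matrix.mul_assoc] at h1 h2
  have key : (List.ofFn (Gam F)).prod = fromBlocks 1 0 0 (-1) * (fromBlocks 0 (F.L 0)ᵀ (F.L 0) 0 *
      (fromBlocks 0 (F.L 1)ᵀ (F.L 1) 0 * (fromBlocks 0 (F.L 2)ᵀ (F.L 2) 0 *
      (fromBlocks 0 (F.L 3)ᵀ (F.L 3) 0 * (fromBlocks 0 (F.L 4)ᵀ (F.L 4) 0 *
      (fromBlocks 0 (F.L 5)ᵀ (F.L 5) 0 * (fromBlocks 0 (F.L 6)ᵀ (F.L 6) 0 *
      fromBlocks 0 (F.L 7)ᵀ (F.L 7) 0))))))) := by
    simp only [List.ofFn_succ, List.ofFn_zero, List.prod_cons, List.prod_nil, mul_one]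
    rfl
  rw [key]
  simp only [fromBlocks_multiply, zero_mul, mul_zero, add_zero, zero_add, h1, h2]
  ext i j
  rcases i with i | i <;> rcases j with j | j <;>
    simp [Matrix.one_apply]

end Pool.Agent.PD4.Loc
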