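import Pool.Agent.PD4.Ix.Sm
import Pool.Agent.PD4.Loc.Gam
import Pool.Agent.PD4.Loc.CliffSum

/-!
# Project PD (MP_69cf13_gt), local model: the Chern integrand of `(1 + z·Γ)/2`
-/

open Matrix

namespace Pool.Agent.PD4.Loc

/-- the gamma matrices over `Sm 8` -/
noncomputable def GamS (F : OctFrame) (a : Fin 9) : Matrix (Fin 8 ⊕ Fin 8) (Fin 8 ⊕ Fin 8) (Sm 8) :=
  (Gam F a).map (fun x : ℝ => algebraMap ℂ (Sm 8) (x : ℂ))

/-- the idempotent `(1 + z·Γ)/2` (idempotent if `∑ zₐ² = 1`) -/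
noncomputable def eCl (F : OctFrame) (z : Fin 9 → Sm 8) :
    Matrix (Fin 8 ⊕ Fin 8) (Fin 8 ⊕ Fin 8) (Sm 8) :=
  (1 / 2 : ℂ) • (1 + ∑ a, z a • GamS F a)

/-- the `9 × 9` matrix with columns `z, ∂₀ z, …, ∂₇ z` -/
noncomputable def Nz (z : Fin 9 → Sm 8) : Matrix (Fin 9) (Fin 9) (Sm 8) :=
  Matrix.of fun a j => Fin.cases (z a) (fun i : Fin 8 => pD i (z a)) j

/-- real constants in `Sm 8` -/
noncomputable def rS : ℝ →+* Sm 8 := (algebraMap ℂ (Sm 8)).comp Complex.ofRealHom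

theorem GamS_eq (F : OctFrame) (a : Fin 9) : GamS F a = rS.mapMatrix (Gam F a) := rfl

theorem GamS_anti (F : OctFrame) (a b : Fin 9) (h : a ≠ b) :
    GamS F a * GamS F b = - (GamS F b * GamS F a) := by
  rw [GamS_eq, GamS_eq, ← map_mul, Gam_anti F a b h, map_neg, map_mul]

theorem GamS_sq (F : OctFrame) (a : Fin 9) : GamS F a * GamS F a = 1 := by
  rw [GamS_eq, ← map_mul, Gam_sq, map_one]

theorem trace_rS (M : Matrix (Fin 8 ⊕ Fin 8) (Fin 8 ⊕ Fin 8) ℝ) :
    (rS.mapMatrix M).trace = rS M.trace := by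
  simp only [Matrix.trace, Matrix.diag_apply, map_sum]
  rfl

theorem GamS_trace (F : OctFrame) (a : Fin 9) : (GamS F a).trace = 0 := by
  rw [GamS_eq, trace_rS, Gam_trace, map_zero]

theorem GamS_trace_mul (F : OctFrame) (a b : Fin 9) :
    (GamS F a * GamS F b).trace = if a = b then 16 else 0 := by
  rw [GamS_eq, GamS_eq, ← map_mul, trace_rS, Gam_trace_mul]
  split_ifs
  · exact map_ofNat rS 16
  · exact map_zero rS

theorem GamS_prod (F : OctFrame) : (List.ofFn (GamS F)).prod = rS F.eps • 1 := by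
  have h1 : List.ofFn (GamS F) = (List.ofFn (Gam F)).map (rS.mapMatrix (m := Fin 8 ⊕ Fin 8)) := by
    rw [List.map_ofFn]
    rfl
  rw [h1, ← map_list_prod, Gam_prod]
  ext1 i j
  simp only [RingHom.mapMatrix_apply, Matrix.map_apply, Matrix.smul_apply, smul_eq_mul, map_mul]
  by_cases h : i = j
  · subst h; simp
  · simp [Matrix.one_apply_ne h]

theorem pD_rS (i : Fin 8) (x : ℝ) : pD i (rS x) = 0 := by
  apply Subtype.ext
  funext y
  change fderiv ℝ (fun _ => (x : ℂ)) y (Pi.single i 1) = 0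
  simp

/-- the derivative of the idempotent -/
theorem D_eCl (F : OctFrame) (z : Fin 9 → Sm 8) (i : Fin 8) :
    (matCalc (Fin 8 ⊕ Fin 8) 8).D i (eCl F z) =
      (1 / 2 : ℂ) • ∑ a, (pD i (z a)) • GamS F a := by
  change (pD i).mapMatrix (eCl F z) = _
  unfold eCl
  rw [map_smul, map_add, map_sum]
  congr 1
  have h1 : (pD i).mapMatrix (1 : Matrix (Fin 8 ⊕ Fin 8) (Fin 8 ⊕ Fin 8) (Sm 8)) = 0 := by
    ext1 j k
    change pD i ((1 : Matrix (Fin 8 ⊕ Fin 8) (Fin 8 ⊕ Fin 8) (Sm 8)) j k) = 0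
    by_cases h : j = k
    · subst h
      rw [Matrix.one_apply_eq]
      have := pD_rS i 1
      rwa [map_one] at this
    · rw [Matrix.one_apply_ne h, map_zero]
  rw [h1, zero_add]
  apply Finset.sum_congr rfl
  intro a _
  ext1 j k
  change pD i (z a * rS (Gam F a j k)) = pD i (z a) * rS (Gam F a j k)
  rw [pD_leib, pD_rS, mul_zero, add_zero]

section gen

variable {S R : Type*} [CommRing S] [Ring R] [Algebra S R] [Algebra ℂ S] [Algebra ℂ R] {n : ℕ}

theorem ofFn_smul_prod (m : ℕ) (c : ℂ) (v : Fin m → R) :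
    (List.ofFn fun j => c • v j).prod = (c ^ m) • (List.ofFn v).prod := by
  induction m with
  | zero => simp
  | succ m ih =>
    rw [List.ofFn_succ, List.ofFn_succ, List.prod_cons, List.prod_cons, ih, smul_mul_smul_comm,
      pow_succ']

/-- the Chern integrand of `c (1 + z·Γ)`, abstract form -/
theorem evenT_gen (hn : Even n) (hn0 : n ≠ 0) (C : Calc R n) (tr : R →ₗ[S] S)
    (tr_comm : ∀ a b, tr (a * b) = tr (b * a)) (m : S →ₗ[ℂ] ℂ) (htr : ∀ a, C.tr a = m (tr a))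
    (G : Fin (n + 1) → R) (hsq : ∀ a, G a * G a = 1) (hac : ∀ a b, a ≠ b → G a * G b = -(G b * G a))
    (h2 : IsUnit (2 : S)) (z : Fin (n + 1) → S) (dz : Fin n → Fin (n + 1) → S) (c : ℂ) (e : R)
    (he : e = c • (1 + cl G z)) (hD : ∀ i, C.D i e = c • cl G (dz i)) :
    C.evenT e = c ^ (n + 1) * m ((n.factorial : S) * tr (List.ofFn G).prod *
      (Matrix.of (Matrix.vecCons z dz) : Matrix (Fin (n + 1)) (Fin (n + 1)) S).det) := by
  rw [← cliff_sum hn tr tr_comm G hsq hac h2 hn0 z dz, Calc.evenT_eq, map_sum, Finset.mul_sum]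
  apply Finset.sum_congr rfl
  intro σ _
  have h1 : (List.ofFn fun j : Fin n => C.D (σ j) e).prod =
      (c ^ n) • (List.ofFn fun j => cl G (dz (σ j))).prod := by
    rw [← ofFn_smul_prod]
    congr 1
    apply congrArg List.ofFn
    funext j
    exact hD (σ j)
  rw [h1, he, smul_mul_smul_comm, map_smul, ← pow_succ', smul_eq_mul, htr]
  have h3 : m (((Equiv.Perm.sign σ : ℤ) : S) *
      tr ((1 + cl G z) * (List.ofFn fun j => cl G (dz (σ j))).prod)) =
      ((Equiv.Perm.sign σ : ℤ) : ℂ) *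
        m (tr ((1 + cl G z) * (List.ofFn fun j => cl G (dz (σ j))).prod)) := by
    rw [← zsmul_eq_mul, map_zsmul, zsmul_eq_mul]
  rw [h3]
  ring

end gen

/-- the matrix form, for any (even) number of variables -/
theorem evenT_mat {ι : Type*} [Fintype ι] [DecidableEq ι] {n m : ℕ} (hm : m = n + 1)
    (hn : Even n) (hn0 : n ≠ 0)
    (G : Fin m → Matrix ι ι (Sm n)) (hsq : ∀ a, G a * G a = 1)
    (hac : ∀ a b, a ≠ b → G a * G b = -(G b * G a))
    (h2 : IsUnit (2 : Sm n)) (z : Fin m → Sm n) (e : Matrix ι ι (Sm n))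
    (he : e = (1 / 2 : ℂ) • (1 + ∑ a, z a • G a))
    (hD : ∀ i, (matCalc ι n).D i e = (1 / 2 : ℂ) • ∑ a, pD i (z a) • G a) (K : ℕ)
    (hK : n.factorial = K) (M : Matrix (Fin m) (Fin m) (Sm n))
    (hM0 : ∀ a, M a (Fin.cast hm.symm 0) = z a)
    (hM1 : ∀ a (i : Fin n), M a (Fin.cast hm.symm i.succ) = pD i (z a)) :
    (matCalc ι n).evenT e = (1 / 2 : ℂ) ^ m * mean ((K : Sm n) * (List.ofFn G).prod.trace *
      M.det) := by
  subst hm
  rw [evenT_gen (S := Sm n) hn hn0 (matCalc ι n) (Matrix.traceLinearMap ι (Sm n) (Sm n))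
    (fun a b => Matrix.trace_mul_comm a b) mean (fun a => rfl) G hsq hac
    h2 z (fun i a => pD i (z a)) (1 / 2) e he hD, hK]
  have hM : (Matrix.of (Matrix.vecCons z (fun i a => pD i (z a))) :
        Matrix (Fin (n + 1)) (Fin (n + 1)) (Sm n)) = Mᵀ := by
    ext1 j a
    refine Fin.cases ?_ (fun i => ?_) j
    · exact (hM0 a).symm
    · exact (hM1 a i).symm
  rw [hM, Matrix.det_transpose]
  rfl

theorem two_unit : IsUnit (2 : Sm 8) := by
  apply IsUnit.of_mul_eq_one (algebraMap ℂ (Sm 8) (1 / 2))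
  have h14 : (2 : Sm 8) = algebraMap ℂ (Sm 8) 2 := (map_ofNat (algebraMap ℂ (Sm 8)) 2).symm
  rw [h14, ← map_mul]
  norm_num

theorem trace_prod (F : OctFrame) : ((List.ofFn (GamS F)).prod).trace = rS F.eps * 16 := by
  rw [GamS_prod, Matrix.trace_smul, Matrix.trace_one, smul_eq_mul]
  norm_num

theorem mean_K (F : OctFrame) (K : ℕ) (D : Sm 8) :
    mean ((K : Sm 8) * (rS F.eps * 16) * D) = (K : ℂ) * ((F.eps : ℂ) * 16) * mean D := by
  have h11 : (K : Sm 8) * (rS F.eps * 16) * D = ((K : ℂ) * ((F.eps : ℂ) * 16)) • D := by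
    have h12 : rS F.eps = algebraMap ℂ (Sm 8) (F.eps : ℂ) := rfl
    rw [Algebra.smul_def, map_mul, map_mul, map_natCast, map_ofNat, h12]
  rw [h11, map_smul, smul_eq_mul]

theorem num_gen (K : ℕ) (e m : ℂ) :
    ((1 / 2 : ℂ) ^ 9) * ((K : ℂ) * (e * 16) * m) = e * ((K : ℂ) / 32) * m := by
  ring

/-- the last computation, for a general matrix -/
theorem evenT_last (F : OctFrame) (X : Sm 8) (K : ℕ) :
    (1 / 2 : ℂ) ^ 9 * mean ((K : Sm 8) * (List.ofFn (GamS F)).prod.trace * X) =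
      (F.eps : ℂ) * ((K : ℂ) / 32) * mean X := by
  rw [trace_prod, mean_K, num_gen]

/-- **the Chern integrand of `(1 + z·Γ)/2`** -/
theorem evenT_eCl (F : OctFrame) (z : Fin 9 → Sm 8) :
    (matCalc (Fin 8 ⊕ Fin 8) 8).evenT (eCl F z) =
      (F.eps : ℂ) * ((Nat.factorial 8 : ℂ) / 32) * mean (Nz z).det := by
  obtain ⟨K, hK⟩ : ∃ K, Nat.factorial 8 = K := ⟨_, rfl⟩
  rw [hK]
  exact (evenT_mat (n := 8) (m := 9) rfl (by decide) (by norm_num) (GamS F) (GamS_sq F)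
    (GamS_anti F) two_unit z (eCl F z) rfl (D_eCl F z) K hK (Nz z) (fun _ => rfl)
    (fun _ _ => rfl)).trans (evenT_last F _ K)

end Pool.Agent.PD4.Loc
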