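import Mathlib

/-!
# Project PD (MP_69cf13_gt), local model: the radial integral (proof)
-/

open MeasureTheory Set
open scoped ContDiff

namespace Pool.Agent.PD4.Loc

/-- one-dimensional part -/
lemma radial_one (f h : ℝ → ℝ) (hf : ContDiff ℝ ∞ f) (hh : ContDiff ℝ ∞ h)
    (hfh : ∀ t, f t ^ 2 + t * h t ^ 2 = 1) (f0 : f 0 = -1) (δ : ℝ) (hδ : 0 < δ)
    (f1 : ∀ t, δ ≤ t → f t = 1) :
    ∫ r in Ioi (0 : ℝ), r ^ 7 • (-2 * deriv f (r ^ 2) * h (r ^ 2) ^ 6) = - (32 / 35) := by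
  have hf' : Continuous (deriv f) := hf.continuous_deriv (by simp)
  have hd : ∀ t, HasDerivAt f (deriv f t) t := fun t =>
    ((hf.differentiable (by simp)) t).hasDerivAt
  have hzero : ∀ t, δ < t → deriv f t = 0 := by
    intro t ht
    have h3 : f =ᶠ[nhds t] fun _ => 1 := by
      filter_upwards [lt_mem_nhds ht] with s hs
      exact f1 s hs.le
    rw [h3.deriv_eq, deriv_const]
  let P : ℝ → ℝ := fun u => -(u - u ^ 3 + 3 / 5 * u ^ 5 - u ^ 7 / 7)
  have hP : ∀ r : ℝ, HasDerivAt (fun r => P (f (r ^ 2)))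
      (r ^ 7 • (-2 * deriv f (r ^ 2) * h (r ^ 2) ^ 6)) r := by
    intro r
    have h1 : HasDerivAt P (-(1 - 3 * (f (r ^ 2)) ^ 2 + 3 * (f (r ^ 2)) ^ 4 - (f (r ^ 2)) ^ 6))
        (f (r ^ 2)) := by
      have a1 := hasDerivAt_id (f (r ^ 2))
      have a3 := hasDerivAt_pow 3 (f (r ^ 2))
      have a5 := (hasDerivAt_pow 5 (f (r ^ 2))).const_mul (3 / 5 : ℝ)
      have a7 := (hasDerivAt_pow 7 (f (r ^ 2))).div_const 7
      have := (((a1.sub a3).add a5).sub a7).neg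
      refine this.congr_deriv ?_
      norm_num
      ring
    have h2 : HasDerivAt (fun r : ℝ => r ^ 2) (2 * r) r := by
      have := hasDerivAt_pow 2 r
      refine this.congr_deriv ?_
      norm_num
    have h3 : HasDerivAt (fun r : ℝ => f (r ^ 2)) (deriv f (r ^ 2) * (2 * r)) r :=
      HasDerivAt.comp (h₂ := f) r (hd (r ^ 2)) h2
    have h4 : HasDerivAt (fun r => P (f (r ^ 2)))
        (-(1 - 3 * (f (r ^ 2)) ^ 2 + 3 * (f (r ^ 2)) ^ 4 - (f (r ^ 2)) ^ 6) *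
          (deriv f (r ^ 2) * (2 * r))) r :=
      HasDerivAt.comp (h₂ := P) (h := fun r : ℝ => f (r ^ 2)) r h1 h3
    refine h4.congr_deriv ?_
    have e : r ^ 2 * h (r ^ 2) ^ 2 = 1 - f (r ^ 2) ^ 2 := by linarith [hfh (r ^ 2)]
    rw [smul_eq_mul]
    calc -(1 - 3 * (f (r ^ 2)) ^ 2 + 3 * (f (r ^ 2)) ^ 4 - (f (r ^ 2)) ^ 6) *
          (deriv f (r ^ 2) * (2 * r)) = -2 * r * deriv f (r ^ 2) * (1 - f (r ^ 2) ^ 2) ^ 3 := by ring
      _ = -2 * r * deriv f (r ^ 2) * (r ^ 2 * h (r ^ 2) ^ 2) ^ 3 := by rw [e]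
      _ = r ^ 7 * (-2 * deriv f (r ^ 2) * h (r ^ 2) ^ 6) := by ring
  have hcont : Continuous fun r : ℝ => r ^ 7 • (-2 * deriv f (r ^ 2) * h (r ^ 2) ^ 6) := by
    have := hh.continuous
    simp only [smul_eq_mul]
    fun_prop
  have hcs : HasCompactSupport fun r : ℝ => r ^ 7 • (-2 * deriv f (r ^ 2) * h (r ^ 2) ^ 6) := by
    refine HasCompactSupport.intro (isCompact_closedBall (0 : ℝ) (Real.sqrt δ)) fun x hx => ?_
    have h1 : Real.sqrt δ < |x| := by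
      simpa [Metric.mem_closedBall, Real.dist_eq] using hx
    have h2 : δ < x ^ 2 := by
      have := (Real.sqrt_lt' (lt_of_le_of_lt (Real.sqrt_nonneg δ) h1)).mp h1
      rwa [sq_abs] at this
    simp [hzero _ h2]
  have hlim : Filter.Tendsto (fun r : ℝ => P (f (r ^ 2))) Filter.atTop (nhds (P 1)) := by
    have h1 : (fun r : ℝ => P (f (r ^ 2))) =ᶠ[Filter.atTop] fun _ => P 1 := by
      filter_upwards [Filter.eventually_ge_atTop (Real.sqrt δ)] with r hr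
      have : δ ≤ r ^ 2 := by
        calc δ = Real.sqrt δ ^ 2 := (Real.sq_sqrt hδ.le).symm
          _ ≤ r ^ 2 := pow_le_pow_left₀ (Real.sqrt_nonneg δ) hr 2
      rw [f1 _ this]
    exact Filter.Tendsto.congr' h1.symm tendsto_const_nhds
  have := integral_Ioi_of_hasDerivAt_of_tendsto
    (a := (0 : ℝ)) ((hP 0).continuousAt.continuousWithinAt) (fun x _ => hP x)
    ((hcont.integrable_of_hasCompactSupport hcs).integrableOn) hlim
  rw [this]
  simp only [P]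
  norm_num [f0]

/-- **radial integral** -/
theorem radial_integral' (f h : ℝ → ℝ) (hf : ContDiff ℝ ∞ f) (hh : ContDiff ℝ ∞ h)
    (hfh : ∀ t, f t ^ 2 + t * h t ^ 2 = 1) (f0 : f 0 = -1) (δ : ℝ) (hδ : 0 < δ)
    (f1 : ∀ t, δ ≤ t → f t = 1) :
    ∫ y : Fin 8 → ℝ, -2 * deriv f (∑ i, y i ^ 2) * h (∑ i, y i ^ 2) ^ 6 =
      - (32 / 105) * Real.pi ^ 4 := by
  have h1 : ∫ y : Fin 8 → ℝ, -2 * deriv f (∑ i, y i ^ 2) * h (∑ i, y i ^ 2) ^ 6 =
      ∫ x : EuclideanSpace ℝ (Fin 8), -2 * deriv f (‖x‖ ^ 2) * h (‖x‖ ^ 2) ^ 6 := by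
    rw [← (PiLp.volume_preserving_toLp (Fin 8)).integral_comp
      (MeasurableEquiv.toLp 2 (Fin 8 → ℝ)).measurableEmbedding]
    refine integral_congr_ae (Filter.Eventually.of_forall fun y => ?_)
    have : ‖(WithLp.toLp 2 y : EuclideanSpace ℝ (Fin 8))‖ ^ 2 = ∑ i, y i ^ 2 := by
      rw [EuclideanSpace.norm_sq_eq]
      exact Finset.sum_congr rfl fun i _ => by simp [sq_abs]
    simp only [this]
  rw [h1]
  have h2 := integral_fun_norm_addHaar (volume : Measure (EuclideanSpace ℝ (Fin 8)))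
    (fun r => -2 * deriv f (r ^ 2) * h (r ^ 2) ^ 6)
  have h3 : Module.finrank ℝ (EuclideanSpace ℝ (Fin 8)) = 8 := by simp
  rw [h2, h3, radial_one f h hf hh hfh f0 δ hδ f1]
  have h4 : (volume : Measure (EuclideanSpace ℝ (Fin 8))).real (Metric.ball 0 1) =
      Real.pi ^ 4 / 24 := by
    rw [Measure.real, InnerProductSpace.volume_ball_of_dim_even (k := 4) (by simp)]
    rw [h3]
    simp only [ENNReal.ofReal_one, one_pow, one_mul]
    rw [ENNReal.toReal_ofReal (by positivity)]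
    norm_num [Nat.factorial]
  rw [h4]
  simp only [smul_eq_mul, nsmul_eq_mul]
  push_cast
  ring

end Pool.Agent.PD4.Loc
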